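import Pool.Agent.N38.LU.Abs2
/-! The transfer argument: coaction on `Hom(X,K)` and the main identity. -/
universe u
set_option autoImplicit false
set_option linter.unusedSectionVars false
set_option linter.unusedSimpArgs false
open TensorProduct

namespace Pool.Agent.N38.LU

variable {k G T ι : Type*} [Field k] [CommRing G] [Algebra k G] [AddCommGroup T] [Module k T]
  [DecidableEq ι] [Fintype ι]

/-- span of the `n`-fold products of the `x j` -/
noncomputable def Gm (k : Type*) {G ι : Type*} [Field k] [CommRing G] [Algebra k G] (x : ι → G) : ℕ → Submodule k G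
  | 0 => Submodule.span k {1}
  | n+1 => Submodule.span k {z | ∃ j, ∃ g ∈ Gm k x n, z = x j * g}

theorem bij_of_nilp {M : Type*} [AddCommGroup M] [Module k M] (E : Module.End k M) (n : ℕ)
    (h : (E - 1) ^ n = 0) : Function.Bijective E := by
  have h' : IsNilpotent (E - 1) := ⟨n, h⟩
  have h2 : IsUnit E := by
    have := h'.isUnit_one_add
    rwa [add_sub_cancel] at this
  exact (Module.End.isUnit_iff _).1 h2

namespace HT
variable (H : HT k T ι)

theorem LK_one (z : G ⊗[k] T) (g : G) : LK G H (g ⊗ₜ H.one) z = (LinearMap.mulLeft k g).rTensor T z := by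
  induction z with
  | zero => simp
  | add a b ha hb => simp [ha, hb]
  | tmul h t => simp [H.one_mu]

theorem P_sum_rT {V : Type*} [AddCommGroup V] [Module k V] (z : T ⊗[k] V) :
    ∃ N, ∀ M, N ≤ M → z = ∑ i ∈ Finset.range M, (H.P i).rTensor V z := by
  induction z with
  | zero => exact ⟨0, by simp⟩
  | add a b ha hb =>
    obtain ⟨N1, h1⟩ := ha
    obtain ⟨N2, h2⟩ := hb
    refine ⟨max N1 N2, fun M hM => ?_⟩
    simp only [map_add, Finset.sum_add_distrib]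
    rw [← h1 M (le_trans (le_max_left _ _) hM), ← h2 M (le_trans (le_max_right _ _) hM)]
  | tmul t v =>
    obtain ⟨N, h⟩ := H.P_sum t
    refine ⟨N, fun M hM => ?_⟩
    simp only [LinearMap.rTensor_tmul, ← sum_tmul]
    rw [← h M hM]

theorem P_Del_self (i : ℕ) (t : T) (ht : H.P i t = t) : (H.P i).lTensor T (H.Del t) = H.one ⊗ₜ t := by
  obtain ⟨N, hN⟩ := H.P_sum_rT ((H.P i).lTensor T (H.Del t))
  rw [hN (N+1) (Nat.le_succ N)]
  have h1 : ∀ a, (H.P a).rTensor T ((H.P i).lTensor T (H.Del t)) = TensorProduct.map (H.P a) (H.P i) (H.Del (H.P i t)) := by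
    intro a
    rw [ht, ← LinearMap.comp_apply, LinearMap.rTensor_comp_lTensor]
  have h2 : ∀ a ∈ Finset.range (N+1), a ≠ 0 → (H.P a).rTensor T ((H.P i).lTensor T (H.Del t)) = 0 := by
    intro a _ ha
    rw [h1, H.P_Del]; omega
  rw [Finset.sum_eq_single 0 h2 (by simp)]
  have h3 : ∀ z : T ⊗[k] T, (H.P 0).rTensor T ((H.P i).lTensor T z) =
      H.one ⊗ₜ H.P i (TensorProduct.lid k T (H.eps.rTensor T z)) := by
    intro z
    induction z with
    | zero => simp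
    | add a b ha hb => simp only [map_add, ha, hb, tmul_add]
    | tmul s u => simp [H.P_zero, smul_tmul]
  rw [h3, H.cou_l, ht]

end HT

variable {X : Type*} [AddCommGroup X] [Module k X] {H : HT k T ι} {x : ι → G}

namespace XD
variable (D : XD H x X)
include D

theorem Dop_L (κ : G ⊗[k] T) : D.Dop (LK G H κ ∘ₗ D.inc) = LK G H (dK H x κ) ∘ₗ D.inc := by
  ext z
  simp only [Dop_apply, LinearMap.comp_apply, dK_LK, JK_LK, ← D.inc_JX, D.JX_JX, D.inc_dX, add_sub_cancel_right]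

theorem Eop_L (j : ι) (κ : G ⊗[k] T) : D.Eop j (LK G H κ ∘ₗ D.inc) = LK G H (JK G H (rK G H j κ)) ∘ₗ D.inc := by
  ext z
  simp only [Eop_apply, LinearMap.comp_apply, rK_LK, D.inc_rX, add_sub_cancel_right, JK_LK, JK_JK]

theorem y_L [Module.Finite k X] (hQ : Quad H x) (n : ℕ) : ∀ g ∈ Gm k x n,
    D.y n (LK G H (g ⊗ₜ H.one) ∘ₗ D.inc) = (LinearMap.trace k X D.JX) • g := by
  induction n with
  | zero =>
    intro g hg
    rw [Gm, Submodule.mem_span_singleton] at hg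
    obtain ⟨c, rfl⟩ := hg
    have : D.JX ∘ₗ D.Pop (LK G H ((c • (1 : G)) ⊗ₜ H.one) ∘ₗ D.inc) = c • D.JX := by
      ext z
      have e : LinearMap.mulLeft k (c • (1 : G)) = c • LinearMap.id := by ext; simp
      simp only [LinearMap.comp_apply, Pop_apply, LinearMap.smul_apply, HT.LK_one, e, LinearMap.rTensor_smul, map_smul,
        LinearMap.rTensor_id, LinearMap.id_apply, D.pr_inc]
    rw [y_zero, this, map_smul, smul_eq_mul, Algebra.algebraMap_eq_smul_one, smul_smul, mul_comm]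
  | succ n ih =>
    intro g hg
    rw [Gm] at hg
    induction hg using Submodule.span_induction with
    | zero => simp
    | add a b _ _ ha hb => simp only [add_tmul, map_add, LinearMap.add_comp, ha, hb, smul_add]
    | smul c a _ ha => simp only [← smul_tmul', map_smul, LinearMap.smul_comp, ha]; rw [smul_comm]
    | mem z hz =>
      obtain ⟨j, g, hg, rfl⟩ := hz
      have h1 : (x j * g) ⊗ₜ[k] H.one = dK H x (g ⊗ₜ H.tt j) := by
        simp only [dK_tmul, H.lam_tt]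
        rw [Finset.sum_eq_single j]
        · simp
        · intro b _ hb; simp [hb]
        · simp
      rw [h1, ← D.Dop_L, D.y_succ_Dop hQ]
      have h2 : ∀ l, x l * D.y n (D.Eop l (LK G H (g ⊗ₜ[k] H.tt j) ∘ₗ D.inc)) =
          if l = j then x l * ((LinearMap.trace k X D.JX) • g) else 0 := by
        intro l
        rw [D.Eop_L, rK_tmul, H.rho_tt]
        split_ifs with h
        · rw [JK_tmul, H.J_one, ih g hg]
        · simp
      rw [Finset.sum_congr rfl fun l _ => h2 l]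
      simp

/-- the operator `Ω ↦ (1 ⊗ μ)(Ω ⊗ 1)Δ` -/
noncomputable def C (V : Type*) [AddCommGroup V] [Module k V] :
    (X →ₗ[k] V ⊗[k] T) →ₗ[k] (X →ₗ[k] V ⊗[k] T) where
  toFun Ω := MR V H.mu ∘ₗ Ω.rTensor T ∘ₗ D.DX
  map_add' a b := by ext z; simp [LinearMap.rTensor_add]
  map_smul' c a := by ext z; simp [LinearMap.rTensor_smul]

theorem C_apply (V : Type*) [AddCommGroup V] [Module k V] (Ω : X →ₗ[k] V ⊗[k] T) (z : X) :
    D.C V Ω z = MR V H.mu (Ω.rTensor T (D.DX z)) := rfl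

theorem MR_one (V : Type*) [AddCommGroup V] [Module k V] (w : V ⊗[k] T) : MR V H.mu (w ⊗ₜ H.one) = w := by
  induction w with
  | zero => simp
  | add a b ha hb => simp only [add_tmul, map_add, ha, hb]
  | tmul v t => simp [H.mu_one]

theorem C_nil (V : Type*) [AddCommGroup V] [Module k V] (i : ℕ) (Ω : X →ₗ[k] V ⊗[k] T) :
    (((D.C V - 1) ^ i) Ω) ∘ₗ D.Q i = 0 := by
  induction i with
  | zero => rw [D.Q_zero]; simp
  | succ i ih =>
    rw [pow_succ']
    ext z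
    have hz := D.Q_DX i z
    generalize hΩ' : ((D.C V - 1) ^ i) Ω = Ω' at ih
    simp only [Module.End.mul_apply, hΩ', LinearMap.comp_apply, LinearMap.sub_apply, D.C_apply, Module.End.one_apply,
      LinearMap.zero_apply]
    have e : Ω' (D.Q (i+1) z) = MR V H.mu (Ω'.rTensor T ((D.Q (i+1) z) ⊗ₜ H.one)) := by
      rw [LinearMap.rTensor_tmul, D.MR_one]
    have h0 : MR V H.mu (Ω'.rTensor T (D.DX (D.Q (i+1) z))) - Ω' (D.Q (i+1) z) = 0 := by
      rw [e, ← map_sub, ← map_sub, hz, ← LinearMap.rTensor_comp_apply, ih]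
      simp
    exact h0

theorem C_bij (V : Type*) [AddCommGroup V] [Module k V] : Function.Bijective (D.C V) := by
  refine bij_of_nilp (D.C V) D.N ?_
  ext1 Ω
  have := D.C_nil V D.N Ω
  rw [D.Q_N] at this
  simpa using this

noncomputable def Ceq (V : Type*) [AddCommGroup V] [Module k V] :
    (X →ₗ[k] V ⊗[k] T) ≃ₗ[k] (X →ₗ[k] V ⊗[k] T) := LinearEquiv.ofBijective (D.C V) (D.C_bij V)

/-- the adjoint coaction (unsigned) -/
noncomputable def A (ψ : X →ₗ[k] G ⊗[k] T) : X →ₗ[k] (G ⊗[k] T) ⊗[k] T := (D.Ceq _).symm (DK G H ∘ₗ ψ)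

theorem C_A (ψ : X →ₗ[k] G ⊗[k] T) : D.C _ (D.A ψ) = DK G H ∘ₗ ψ := (D.Ceq _).apply_symm_apply _

theorem A_eq (ψ : X →ₗ[k] G ⊗[k] T) (Ω : X →ₗ[k] (G ⊗[k] T) ⊗[k] T) (h : D.C _ Ω = DK G H ∘ₗ ψ) : D.A ψ = Ω :=
  (D.C_bij _).1 (by rw [D.C_A, h])

theorem A_add (a b : X →ₗ[k] G ⊗[k] T) : D.A (a + b) = D.A a + D.A b := by
  apply D.A_eq; rw [map_add, D.C_A, D.C_A, LinearMap.comp_add]

theorem C_left {V W : Type*} [AddCommGroup V] [Module k V] [AddCommGroup W] [Module k W] (u : V →ₗ[k] W)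
    (Ω : X →ₗ[k] V ⊗[k] T) : D.C W (u.rTensor T ∘ₗ Ω) = u.rTensor T ∘ₗ D.C V Ω := by
  ext z
  simp only [C_apply, LinearMap.comp_apply]
  induction D.DX z with
  | zero => simp
  | add a b ha hb => simp only [map_add, ha, hb]
  | tmul p t =>
    simp only [LinearMap.rTensor_tmul, LinearMap.comp_apply]
    induction Ω p with
    | zero => simp
    | add a b ha hb => simp only [map_add, add_tmul, ha, hb]
    | tmul v s => simp

theorem A_left (u : G ⊗[k] T →ₗ[k] G ⊗[k] T) (hu : ∀ z, DK G H (u z) = u.rTensor T (DK G H z))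
    (ψ : X →ₗ[k] G ⊗[k] T) : D.A (u ∘ₗ ψ) = u.rTensor T ∘ₗ D.A ψ := by
  apply D.A_eq
  rw [D.C_left, D.C_A]
  ext z; simp [hu]

theorem A_dX (ψ : X →ₗ[k] G ⊗[k] T) : D.A (ψ ∘ₗ D.dX) = D.A ψ ∘ₗ D.dX := by
  apply D.A_eq
  ext z
  rw [C_apply, ← LinearMap.comp_assoc, ← D.C_A, LinearMap.comp_apply, C_apply, D.DX_dX, ← LinearMap.rTensor_comp_apply]

theorem A_J (ψ : X →ₗ[k] G ⊗[k] T) : D.A (JK G H ∘ₗ ψ ∘ₗ D.JX) = TensorProduct.map (JK G H) H.J ∘ₗ D.A ψ ∘ₗ D.JX := by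
  apply D.A_eq
  ext z
  have h := LinearMap.congr_fun (D.C_A ψ) (D.JX z)
  rw [C_apply, D.DX_JX] at h
  simp only [C_apply, LinearMap.comp_apply, DK_JK]
  simp only [LinearMap.comp_apply] at h
  rw [← h]
  induction D.DX z with
  | zero => simp
  | add a b ha hb => simp only [map_add, ha, hb]
  | tmul p t =>
    simp only [LinearMap.rTensor_tmul, LinearMap.comp_apply, TensorProduct.map_tmul]
    induction D.A ψ (D.JX p) with
    | zero => simp
    | add a b ha hb => simp only [map_add, add_tmul, ha, hb]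
    | tmul v s => simp [H.J_mu, H.JJ]

theorem C_lam {V : Type*} [AddCommGroup V] [Module k V] (j : ι) (Ω : X →ₗ[k] V ⊗[k] T) :
    (H.lam j).lTensor V ∘ₗ D.C V Ω = D.C V ((H.lam j).lTensor V ∘ₗ Ω) + D.C V (H.J.lTensor V ∘ₗ Ω ∘ₗ D.rX j) := by
  have h1 : ∀ w : X ⊗[k] T, (H.lam j).lTensor V (MR V H.mu (Ω.rTensor T w)) =
      MR V H.mu (((H.lam j).lTensor V ∘ₗ Ω).rTensor T w) +
      MR V H.mu ((H.J.lTensor V ∘ₗ Ω).rTensor T ((H.lam j).lTensor X w)) := by
    intro w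
    induction w with
    | zero => simp
    | add a b ha hb => simp only [map_add, ha, hb]; abel
    | tmul p t =>
      simp only [LinearMap.rTensor_tmul, LinearMap.lTensor_tmul, LinearMap.comp_apply]
      induction Ω p with
      | zero => simp
      | add a b ha hb => simp only [map_add, add_tmul, ha, hb]; abel
      | tmul v s => simp [H.lam_mu, tmul_add]
  ext z
  simp only [LinearMap.comp_apply, LinearMap.add_apply, C_apply]
  rw [h1, D.lam_DX, ← LinearMap.rTensor_comp_apply]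
  rfl

theorem A_lam (j : ι) (ψ : X →ₗ[k] G ⊗[k] T) :
    (H.lam j).lTensor _ ∘ₗ D.A ψ + H.J.lTensor _ ∘ₗ D.A ψ ∘ₗ D.rX j = (rK G H j).rTensor T ∘ₗ D.A ψ := by
  apply (D.C_bij _).1
  have h := D.C_lam j (D.A ψ)
  have h2 : D.C _ ((rK G H j).rTensor T ∘ₗ D.A ψ) = (H.lam j).lTensor _ ∘ₗ D.C _ (D.A ψ) := by
    rw [D.C_left, D.C_A]
    ext z
    simp only [LinearMap.comp_apply, lam_DK]
  rw [map_add, h2, h]

theorem A_inc (Φ : X →ₗ[k] X) : ∃ Ω : X →ₗ[k] X ⊗[k] T, D.A (D.inc ∘ₗ Φ) = D.inc.rTensor T ∘ₗ Ω := by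
  refine ⟨(D.Ceq X).symm (D.DX ∘ₗ Φ), ?_⟩
  apply D.A_eq
  rw [D.C_left]
  have : D.C X ((D.Ceq X).symm (D.DX ∘ₗ Φ)) = D.DX ∘ₗ Φ := (D.Ceq X).apply_symm_apply _
  rw [this]
  ext z
  simp [D.inc_DX]

theorem A_L (κ : G ⊗[k] T) : D.A (LK G H κ ∘ₗ D.inc) = SS (LK G H) (JK G H) H.ev H.od (DK G H κ) ∘ₗ D.inc := by
  apply D.A_eq
  ext z
  simp only [C_apply, LinearMap.comp_apply, DK_LK, LinearMap.rTensor_comp_apply, D.inc_DX]

/-! ### extension of functionals -/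

/-- `f ⊗ 1 : Hom(X,K ⊗ T) → G ⊗ T` -/
noncomputable def fT [Module.Finite k X] (_D : XD H x X) {M : Type*} [AddCommGroup M] [Module k M] (f : (X →ₗ[k] G ⊗[k] T) →ₗ[k] M) :
    (X →ₗ[k] (G ⊗[k] T) ⊗[k] T) →ₗ[k] M ⊗[k] T :=
  f.rTensor T ∘ₗ (rTensorHomEquivHomRTensor k X (G ⊗[k] T) T).symm.toLinearMap

theorem fT_tmul [Module.Finite k X] {M : Type*} [AddCommGroup M] [Module k M] (f : (X →ₗ[k] G ⊗[k] T) →ₗ[k] M)
    (Φ : X →ₗ[k] G ⊗[k] T) (s : T) : D.fT f ((TensorProduct.mk k (G ⊗[k] T) T).flip s ∘ₗ Φ) = f Φ ⊗ₜ s := by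
  have : (TensorProduct.mk k (G ⊗[k] T) T).flip s ∘ₗ Φ = rTensorHomEquivHomRTensor k X (G ⊗[k] T) T (Φ ⊗ₜ s) := by
    ext z; simp [rTensorHomEquivHomRTensor_apply]
  rw [this, fT, LinearMap.comp_apply, LinearEquiv.coe_coe, LinearEquiv.symm_apply_apply, LinearMap.rTensor_tmul]

theorem hom_ind [Module.Finite k X] {p : (X →ₗ[k] (G ⊗[k] T) ⊗[k] T) → Prop} (h0 : p 0)
    (hadd : ∀ a b, p a → p b → p (a + b))
    (h : ∀ (Φ : X →ₗ[k] G ⊗[k] T) (s : T), p ((TensorProduct.mk k (G ⊗[k] T) T).flip s ∘ₗ Φ)) (Ω) : p Ω := by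
  obtain ⟨w, rfl⟩ := (rTensorHomEquivHomRTensor k X (G ⊗[k] T) T).surjective Ω
  induction w with
  | zero => simpa using h0
  | add a b ha hb => rw [map_add]; exact hadd _ _ ha hb
  | tmul Φ s =>
    have : (TensorProduct.mk k (G ⊗[k] T) T).flip s ∘ₗ Φ = rTensorHomEquivHomRTensor k X (G ⊗[k] T) T (Φ ⊗ₜ s) := by
      ext z; simp [rTensorHomEquivHomRTensor_apply]
    rw [← this]; exact h Φ s

theorem fT_lT [Module.Finite k X] {M : Type*} [AddCommGroup M] [Module k M] (f : (X →ₗ[k] G ⊗[k] T) →ₗ[k] M)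
    (g : T →ₗ[k] T) (Ω : X →ₗ[k] (G ⊗[k] T) ⊗[k] T) :
    D.fT f (g.lTensor _ ∘ₗ Ω) = g.lTensor M (D.fT f Ω) := by
  induction Ω using D.hom_ind with
  | h0 => simp
  | hadd a b ha hb => simp only [LinearMap.comp_add, map_add, ha, hb]
  | h Φ s =>
    have : g.lTensor (G ⊗[k] T) ∘ₗ (TensorProduct.mk k (G ⊗[k] T) T).flip s ∘ₗ Φ =
        (TensorProduct.mk k (G ⊗[k] T) T).flip (g s) ∘ₗ Φ := by ext z; simp
    rw [this, D.fT_tmul, D.fT_tmul, LinearMap.lTensor_tmul]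

/-- two-sided composition as a linear map -/
noncomputable def uv (_D : XD H x X) (u : G ⊗[k] T →ₗ[k] G ⊗[k] T) (v : X →ₗ[k] X) :
    (X →ₗ[k] G ⊗[k] T) →ₗ[k] (X →ₗ[k] G ⊗[k] T) where
  toFun Φ := u ∘ₗ Φ ∘ₗ v
  map_add' a b := by ext z; simp
  map_smul' c a := by ext z; simp

theorem fT_uv [Module.Finite k X] {M : Type*} [AddCommGroup M] [Module k M] (f : (X →ₗ[k] G ⊗[k] T) →ₗ[k] M)
    (u : G ⊗[k] T →ₗ[k] G ⊗[k] T) (v : X →ₗ[k] X) (Ω : X →ₗ[k] (G ⊗[k] T) ⊗[k] T) :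
    D.fT f (u.rTensor T ∘ₗ Ω ∘ₗ v) = D.fT (f ∘ₗ D.uv u v) Ω := by
  induction Ω using D.hom_ind with
  | h0 => simp
  | hadd a b ha hb => simp only [LinearMap.comp_add, LinearMap.add_comp, map_add, ha, hb]
  | h Φ s =>
    have : u.rTensor T ∘ₗ ((TensorProduct.mk k (G ⊗[k] T) T).flip s ∘ₗ Φ) ∘ₗ v =
        (TensorProduct.mk k (G ⊗[k] T) T).flip s ∘ₗ (D.uv u v Φ) := by ext z; simp [uv]
    rw [this, D.fT_tmul, D.fT_tmul, LinearMap.comp_apply]

end XD
end Pool.Agent.N38.LU
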