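import Pool.Agent.N38.LU.Abs3
/-! The transfer argument: the two main vanishing theorems. -/
universe u
set_option autoImplicit false
set_option linter.unusedSectionVars false
set_option linter.unusedSimpArgs false
open TensorProduct

namespace Pool.Agent.N38.LU

variable {k G T ι : Type*} [Field k] [CommRing G] [Algebra k G] [AddCommGroup T] [Module k T]
  [DecidableEq ι] [Fintype ι]
variable {X : Type*} [AddCommGroup X] [Module k X] {H : HT k T ι} {x : ι → G}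

namespace XD
variable (D : XD H x X)
include D

/-- `J^i` on `X` -/
noncomputable def tau (i : ℕ) : X →ₗ[k] X := if Even i then LinearMap.id else D.JX

theorem tau_tau (i : ℕ) (z : X) : D.tau i (D.tau i z) = z := by
  unfold tau; split_ifs <;> simp [D.JX_JX]

theorem dX_tau (i : ℕ) (z : X) : D.dX (D.tau i z) = (-1 : k)^i • D.tau i (D.dX z) := by
  unfold tau; split_ifs with h
  · simp [h.neg_one_pow]
  · simp [(Nat.not_even_iff_odd.1 h).neg_one_pow, D.JX_dX]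

theorem rX_tau (i : ℕ) (j : ι) (z : X) : D.rX j (D.tau i z) = (-1 : k)^i • D.tau i (D.rX j z) := by
  unfold tau; split_ifs with h
  · simp [h.neg_one_pow]
  · simp [(Nat.not_even_iff_odd.1 h).neg_one_pow, D.JX_rX]

theorem JX_tau (i : ℕ) (z : X) : D.JX (D.tau i z) = D.tau i (D.JX z) := by
  unfold tau; split_ifs with h <;> simp

omit D [Fintype ι] [DecidableEq ι] in
theorem sq1 (i : ℕ) : (-1 : k)^i * (-1 : k)^i = 1 := by
  rw [← mul_pow]; simp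

noncomputable def ff (m i : ℕ) : (X →ₗ[k] G ⊗[k] T) →ₗ[k] G := D.y (m+1) ∘ₗ D.uv LinearMap.id (D.tau i)
noncomputable def gg (m i : ℕ) : (X →ₗ[k] G ⊗[k] T) →ₗ[k] G := D.y m ∘ₗ D.uv (JK G H) (D.tau i)

theorem ff_apply (m i : ℕ) (Φ : X →ₗ[k] G ⊗[k] T) : D.ff m i Φ = D.y (m+1) (Φ ∘ₗ D.tau i) := rfl
theorem gg_apply (m i : ℕ) (Φ : X →ₗ[k] G ⊗[k] T) : D.gg m i Φ = D.y m (JK G H ∘ₗ Φ ∘ₗ D.tau i) := rfl

theorem ff_D [Module.Finite k X] (hQ : Quad H x) (m i : ℕ) (Φ : X →ₗ[k] G ⊗[k] T) :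
    D.ff m i (dK H x ∘ₗ Φ) + ∑ j, (-1 : k)^i • (x j * D.gg m i (Φ ∘ₗ D.rX j)) =
      (-1 : k)^i • D.ff m i (JK G H ∘ₗ Φ ∘ₗ D.JX ∘ₗ D.dX) +
      ∑ j, x j * D.gg m i (rK G H j ∘ₗ Φ) := by
  have h1 : (dK H x ∘ₗ Φ) ∘ₗ D.tau i = (-1 : k)^i • ((JK G H ∘ₗ Φ ∘ₗ D.JX ∘ₗ D.dX) ∘ₗ D.tau i) + D.Dop (Φ ∘ₗ D.tau i) := by
    ext z
    simp only [LinearMap.comp_apply, LinearMap.add_apply, LinearMap.smul_apply, Dop_apply, D.dX_tau, map_smul,
      D.JX_tau, smul_smul, sq1, one_smul]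
    abel
  have h2 : ∀ j, D.Eop j (Φ ∘ₗ D.tau i) = JK G H ∘ₗ (rK G H j ∘ₗ Φ) ∘ₗ D.tau i -
      (-1 : k)^i • (JK G H ∘ₗ (Φ ∘ₗ D.rX j) ∘ₗ D.tau i) := by
    intro j
    ext z
    simp only [LinearMap.comp_apply, LinearMap.sub_apply, LinearMap.smul_apply, Eop_apply, D.rX_tau, map_smul,
      smul_smul, sq1, one_smul, map_sub]
  rw [ff_apply, h1, map_add, map_smul, ff_apply, D.y_succ_Dop hQ, add_assoc]
  congr 1
  rw [← Finset.sum_add_distrib]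
  refine Finset.sum_congr rfl fun j _ => ?_
  rw [h2, u_sub, map_smul, mul_sub, gg_apply, gg_apply, mul_smul_comm, sub_add_cancel]

theorem main_id [Module.Finite k X] (hQ : Quad H x) (m i : ℕ) (Ω : X →ₗ[k] (G ⊗[k] T) ⊗[k] T) :
    (H.P i).lTensor G (D.fT (D.ff m i) ((dK H x).rTensor T ∘ₗ Ω)) +
      ∑ j, (LinearMap.mulLeft k (x j)).rTensor T ((H.P i).lTensor G (D.fT (D.gg m i) (H.J.lTensor _ ∘ₗ Ω ∘ₗ D.rX j))) =
    (H.P i).lTensor G (D.fT (D.ff m i) (TensorProduct.map (JK G H) H.J ∘ₗ Ω ∘ₗ D.JX ∘ₗ D.dX)) +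
      ∑ j, (LinearMap.mulLeft k (x j)).rTensor T ((H.P i).lTensor G (D.fT (D.gg m i) ((rK G H j).rTensor T ∘ₗ Ω))) := by
  induction Ω using D.hom_ind with
  | h0 => simp
  | hadd a b ha hb =>
    simp only [LinearMap.comp_add, LinearMap.add_comp, map_add, Finset.sum_add_distrib]
    rw [add_add_add_comm, ha, hb, add_add_add_comm]
  | h Φ s =>
    have e1 : (dK H x).rTensor T ∘ₗ (TensorProduct.mk k (G ⊗[k] T) T).flip s ∘ₗ Φ =
        (TensorProduct.mk k (G ⊗[k] T) T).flip s ∘ₗ (dK H x ∘ₗ Φ) := by ext z; simp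
    have e2 : ∀ j, H.J.lTensor _ ∘ₗ ((TensorProduct.mk k (G ⊗[k] T) T).flip s ∘ₗ Φ) ∘ₗ D.rX j =
        (TensorProduct.mk k (G ⊗[k] T) T).flip (H.J s) ∘ₗ (Φ ∘ₗ D.rX j) := by intro j; ext z; simp
    have e3 : TensorProduct.map (JK G H) H.J ∘ₗ ((TensorProduct.mk k (G ⊗[k] T) T).flip s ∘ₗ Φ) ∘ₗ D.JX ∘ₗ D.dX =
        (TensorProduct.mk k (G ⊗[k] T) T).flip (H.J s) ∘ₗ (JK G H ∘ₗ Φ ∘ₗ D.JX ∘ₗ D.dX) := by ext z; simp
    have e4 : ∀ j, (rK G H j).rTensor T ∘ₗ ((TensorProduct.mk k (G ⊗[k] T) T).flip s ∘ₗ Φ) =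
        (TensorProduct.mk k (G ⊗[k] T) T).flip s ∘ₗ (rK G H j ∘ₗ Φ) := by intro j; ext z; simp
    have key := congrArg (fun g => g ⊗ₜ[k] (H.P i s)) (D.ff_D hQ m i Φ)
    simp only [e1, e2, e3, e4, fT_tmul, LinearMap.lTensor_tmul, LinearMap.rTensor_tmul, H.P_J, LinearMap.mulLeft_apply]
    simp only [add_tmul, sum_tmul, ← smul_tmul', ← tmul_smul] at key
    exact key

theorem lhs_id [Module.Finite k X] (m i : ℕ) (w : (G ⊗[k] T) ⊗[k] T) :
    (H.P i).lTensor G (D.fT (D.ff m i) (SS (LK G H) (JK G H) H.ev H.od w ∘ₗ D.inc)) =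
      TensorProduct.map (D.y (m+1) ∘ₗ LinearMap.lcomp k _ D.inc ∘ₗ LK G H) (H.P i) w := by
  induction w with
  | zero => simp
  | add a b ha hb => simp only [map_add, LinearMap.add_comp, ha, hb]
  | tmul κ s =>
    have e1 : SS (LK G H) (JK G H) H.ev H.od (κ ⊗ₜ s) ∘ₗ D.inc =
        (TensorProduct.mk k (G ⊗[k] T) T).flip (H.ev s) ∘ₗ (LK G H κ ∘ₗ D.inc) +
        (TensorProduct.mk k (G ⊗[k] T) T).flip (H.od s) ∘ₗ (LK G H κ ∘ₗ D.inc ∘ₗ D.JX) := by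
      ext z; simp [D.inc_JX]
    have e2 : (LK G H κ ∘ₗ D.inc ∘ₗ D.JX) ∘ₗ D.JX = LK G H κ ∘ₗ D.inc := by ext z; simp [D.JX_JX]
    rw [e1, map_add, map_add, D.fT_tmul, D.fT_tmul, LinearMap.lTensor_tmul, LinearMap.lTensor_tmul, H.P_ev, H.P_od]
    by_cases h : Even i
    · simp only [h, if_true, tmul_zero, add_zero, ff_apply, tau, TensorProduct.map_tmul]
      rfl
    · simp only [h, if_false, tmul_zero, zero_add, ff_apply, tau, e2, TensorProduct.map_tmul]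
      rfl

theorem map_DK_span [Module.Finite k X] (hQ : Quad H x) (m i : ℕ) (κ : G ⊗[k] T)
    (hκ : κ ∈ Submodule.span k {z | ∃ g ∈ Gm k x m, ∃ t, H.P i t = t ∧ z = g ⊗ₜ[k] t}) :
    TensorProduct.map (D.y m ∘ₗ LinearMap.lcomp k _ D.inc ∘ₗ LK G H) (H.P i) (DK G H κ) =
      (LinearMap.trace k X D.JX) • κ := by
  induction hκ using Submodule.span_induction with
  | zero => simp
  | add a b _ _ ha hb => rw [map_add, map_add, ha, hb, smul_add]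
  | smul c a _ ha => rw [map_smul, map_smul, ha, smul_comm]
  | mem z hz =>
    obtain ⟨g, hg, t, ht, rfl⟩ := hz
    have e : ∀ w : T ⊗[k] T, TensorProduct.map (D.y m ∘ₗ LinearMap.lcomp k _ D.inc ∘ₗ LK G H) (H.P i)
        ((TensorProduct.assoc k G T T).symm (g ⊗ₜ w)) =
      TensorProduct.map (D.y m ∘ₗ LinearMap.lcomp k _ D.inc ∘ₗ LK G H) LinearMap.id
        ((TensorProduct.assoc k G T T).symm (g ⊗ₜ ((H.P i).lTensor T w))) := by
      intro w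
      induction w with
      | zero => simp
      | add a b ha hb => simp only [tmul_add, map_add, ha, hb]
      | tmul u v => simp
    have e0 : DK G H (g ⊗ₜ t) = (TensorProduct.assoc k G T T).symm (g ⊗ₜ (H.Del t)) := by simp [DK]
    rw [e0, e, H.P_Del_self i t ht, TensorProduct.assoc_symm_tmul, TensorProduct.map_tmul]
    have e3 : (D.y m ∘ₗ LinearMap.lcomp k _ D.inc ∘ₗ LK G H) (g ⊗ₜ H.one) = D.y m (LK G H (g ⊗ₜ H.one) ∘ₗ D.inc) := rfl
    rw [e3, D.y_L hQ m g hg]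
    simp [smul_tmul']

/-- vanishing of the cohomology in positive `G`-degree -/
theorem key1 [Module.Finite k X] (hQ : Quad H x) (hχ : LinearMap.trace k X D.JX ≠ 0) (m i : ℕ) (κ : G ⊗[k] T)
    (hκ : κ ∈ Submodule.span k {z | ∃ g ∈ Gm k x (m+1), ∃ t, H.P i t = t ∧ z = g ⊗ₜ[k] t})
    (hd : dK H x κ = 0) : ∃ η, dK H x η = κ := by
  set Λ := LK G H κ ∘ₗ D.inc with hΛ
  set Ψ := D.Sop Λ with hΨ
  have h1 : D.Dop Λ = 0 := by rw [hΛ, D.Dop_L, hd]; simp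
  have h2 : Λ = D.inc ∘ₗ D.Pop Λ + D.Dop Ψ := by
    have := D.Sop_Dop Λ
    rw [h1, map_zero] at this
    ext z
    have hz := LinearMap.congr_fun this z
    simp only [LinearMap.zero_apply, LinearMap.sub_apply] at hz
    rw [LinearMap.add_apply, ← sub_eq_zero, ← sub_sub]
    exact hz.symm
  have h3 : dK H x ∘ₗ Ψ = D.Dop Ψ + (JK G H ∘ₗ Ψ ∘ₗ D.JX) ∘ₗ D.dX := by
    ext z; simp
  set Ω := D.A Ψ with hΩ
  have h4 : (dK H x).rTensor T ∘ₗ Ω = D.A (D.Dop Ψ) + TensorProduct.map (JK G H) H.J ∘ₗ Ω ∘ₗ D.JX ∘ₗ D.dX := by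
    rw [hΩ, ← D.A_left (dK H x) (DK_dK H x), h3, D.A_add, D.A_dX, D.A_J]
    rfl
  have h5 : (H.P i).lTensor G (D.fT (D.ff m i) (D.A (D.inc ∘ₗ D.Pop Λ))) = 0 := by
    obtain ⟨Ω', hΩ'⟩ := D.A_inc (D.Pop Λ)
    have e1 : D.inc.rTensor T ∘ₗ Ω' = (D.inc ∘ₗ D.pr).rTensor T ∘ₗ (D.inc.rTensor T ∘ₗ Ω') ∘ₗ LinearMap.id := by
      have : (D.inc ∘ₗ D.pr) ∘ₗ D.inc = D.inc := by ext z; simp [D.pr_inc]
      rw [LinearMap.comp_id, ← LinearMap.comp_assoc, ← LinearMap.rTensor_comp, this]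
    rw [hΩ', e1, D.fT_uv]
    have e2 : D.ff m i ∘ₗ D.uv (D.inc ∘ₗ D.pr) LinearMap.id = 0 := by
      ext1 Φ
      exact D.y_succ_inc m (D.pr ∘ₗ Φ ∘ₗ D.tau i)
    rw [e2]; simp [fT]
  have h6 : (H.P i).lTensor G (D.fT (D.ff m i) (D.A Λ)) = (LinearMap.trace k X D.JX) • κ := by
    rw [hΛ, D.A_L, D.lhs_id, D.map_DK_span hQ (m+1) i κ hκ]
  have h7 := D.main_id hQ m i Ω
  rw [h4, map_add, map_add] at h7
  have h8 : (H.P i).lTensor G (D.fT (D.ff m i) (D.A (D.Dop Ψ))) = (LinearMap.trace k X D.JX) • κ := by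
    rw [← h6]
    conv_rhs => rw [h2, D.A_add, map_add, map_add, h5, zero_add]
  have h9 : ∀ j, (H.P i).lTensor G (D.fT (D.gg m i) ((rK G H j).rTensor T ∘ₗ Ω)) =
      (H.P i).lTensor G (D.fT (D.gg m i) (H.J.lTensor _ ∘ₗ Ω ∘ₗ D.rX j)) +
      (H.lam j).lTensor G ((H.P (i+1)).lTensor G (D.fT (D.gg m i) Ω)) := by
    intro j
    rw [hΩ, ← D.A_lam, map_add, map_add, add_comm]
    congr 1
    rw [D.fT_lT, ← LinearMap.lTensor_comp_apply, ← LinearMap.lTensor_comp_apply]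
    congr 2
    ext t; exact H.P_lam i j t
  have h10 : ∀ z : G ⊗[k] T, dK H x z = ∑ j, (LinearMap.mulLeft k (x j)).rTensor T ((H.lam j).lTensor G z) := by
    intro z
    simp only [← LinearMap.comp_apply, LinearMap.rTensor_comp_lTensor, dK, LinearMap.sum_apply]
  simp only [h9, map_add, Finset.sum_add_distrib] at h7
  rw [h8, ← h10] at h7
  refine ⟨(LinearMap.trace k X D.JX)⁻¹ • (H.P (i+1)).lTensor G (D.fT (D.gg m i) Ω), ?_⟩
  rw [map_smul]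
  have h11 : dK H x ((H.P (i+1)).lTensor G (D.fT (D.gg m i) Ω)) = (LinearMap.trace k X D.JX) • κ := by
    have : ∀ a b c d : G ⊗[k] T, a + b + c = b + (c + d) → d = a := by
      intro a b c d h
      have : a + (b + c) = d + (b + c) := by
        rw [← add_assoc, h]; abel
      exact (add_right_cancel this).symm
    exact this _ _ _ _ h7
  rw [h11, smul_smul, inv_mul_cancel₀ hχ, one_smul]

end XD
end Pool.Agent.N38.LU
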