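import Pool.Agent.N38.LU.Abs4
/-! The transfer argument: vanishing in `G`-degree zero. -/
universe u
set_option autoImplicit false
set_option linter.unusedSectionVars false
set_option linter.unusedSimpArgs false
open TensorProduct

namespace Pool.Agent.N38.LU

/-- contraction with a functional on the right factor -/
noncomputable def ctr {k T : Type*} (V : Type*) [Field k] [AddCommGroup T] [Module k T] [AddCommGroup V] [Module k V]
    (f : T →ₗ[k] k) : V ⊗[k] T →ₗ[k] V := (TensorProduct.rid k V).toLinearMap ∘ₗ f.lTensor V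

@[simp] theorem ctr_tmul {k T V : Type*} [Field k] [AddCommGroup T] [Module k T] [AddCommGroup V] [Module k V]
    (f : T →ₗ[k] k) (v : V) (t : T) : ctr V f (v ⊗ₜ t) = f t • v := by simp [ctr]

theorem eq_zero_of_ctr {k T V : Type*} [Field k] [AddCommGroup T] [Module k T] [AddCommGroup V] [Module k V]
    (z : V ⊗[k] T) (h : ∀ f : T →ₗ[k] k, ctr V f z = 0) : z = 0 := by
  classical
  let b := Module.Basis.ofVectorSpace k T
  apply (TensorProduct.equivFinsuppOfBasisRight b (M := V)).injective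
  rw [map_zero]
  ext i
  have : ∀ z : V ⊗[k] T, (TensorProduct.equivFinsuppOfBasisRight b (M := V)) z i = ctr V (b.coord i) z := by
    intro z
    induction z with
    | zero => simp
    | add a b ha hb => simp [ha, hb]
    | tmul v t => simp [TensorProduct.equivFinsuppOfBasisRight_apply_tmul_apply]
  rw [this, h]; rfl

theorem ctr_rT {k T V W : Type*} [Field k] [AddCommGroup T] [Module k T] [AddCommGroup V] [Module k V]
    [AddCommGroup W] [Module k W] (f : T →ₗ[k] k) (u : V →ₗ[k] W) (z : V ⊗[k] T) :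
    ctr W f (u.rTensor T z) = u (ctr V f z) := by
  induction z with
  | zero => simp
  | add a b ha hb => simp only [map_add, ha, hb]
  | tmul v t => simp

theorem ctr_lT {k T V : Type*} [Field k] [AddCommGroup T] [Module k T] [AddCommGroup V] [Module k V]
    (f : T →ₗ[k] k) (g : T →ₗ[k] T) (z : V ⊗[k] T) :
    ctr V f (g.lTensor V z) = ctr V (f ∘ₗ g) z := by
  induction z with
  | zero => simp
  | add a b ha hb => simp only [map_add, ha, hb]
  | tmul v t => simp

variable {k G T ι : Type*} [Field k] [CommRing G] [Algebra k G] [AddCommGroup T] [Module k T]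
  [DecidableEq ι] [Fintype ι]

namespace HT
variable (H : HT k T ι)

theorem P_sum_lT {V : Type*} [AddCommGroup V] [Module k V] (z : V ⊗[k] T) :
    ∃ N, ∀ M, N ≤ M → z = ∑ i ∈ Finset.range M, (H.P i).lTensor V z := by
  induction z with
  | zero => exact ⟨0, by simp⟩
  | add a b ha hb =>
    obtain ⟨N1, h1⟩ := ha
    obtain ⟨N2, h2⟩ := hb
    refine ⟨max N1 N2, fun M hM => ?_⟩
    simp only [map_add, Finset.sum_add_distrib]
    rw [← h1 M (le_trans (le_max_left _ _) hM), ← h2 M (le_trans (le_max_right _ _) hM)]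
  | tmul v t =>
    obtain ⟨N, h⟩ := H.P_sum t
    refine ⟨N, fun M hM => ?_⟩
    simp only [LinearMap.lTensor_tmul, ← tmul_sum]
    rw [← h M hM]

theorem eq_P_of (n : ℕ) (t : T) (h : ∀ m, m ≠ n → H.P m t = 0) : t = H.P n t := by
  obtain ⟨N, hN⟩ := H.P_sum t
  conv_lhs => rw [hN (max N (n+1)) (le_max_left _ _)]
  rw [Finset.sum_eq_single n]
  · intro m _ hm; exact h m hm
  · intro hn; exact absurd (Finset.mem_range.2 (lt_of_lt_of_le (Nat.lt_succ_self n) (le_max_right _ _))) hn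

theorem P_ctr (f : T →ₗ[k] k) (l i m : ℕ) (hf : f ∘ₗ H.P l = f) (hm : m + l ≠ i) (t : T) (ht : H.P i t = t) :
    H.P m (ctr T f (H.Del t)) = 0 := by
  have e : ∀ w : T ⊗[k] T, (H.P l).lTensor T ((H.P m).rTensor T w) = TensorProduct.map (H.P m) (H.P l) w := by
    intro w; rw [← LinearMap.comp_apply, LinearMap.lTensor_comp_rTensor]
  have e2 := H.P_Del m l i t (fun h => hm h.symm)
  rw [ht] at e2
  rw [← ctr_rT]
  nth_rewrite 1 [← hf]
  rw [← ctr_lT, e, e2]
  simp

/-- minimal elements killed by all `lam j` are primitive -/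
theorem primitive (i : ℕ) (hi : 1 ≤ i) (κ : T) (hP : H.P i κ = κ) (hl : ∀ j, H.lam j κ = 0)
    (ih : ∀ l, 1 ≤ l → l < i → ∀ t, H.P l t = t → (∀ j, H.lam j t = 0) → t = 0) :
    H.Del κ = κ ⊗ₜ H.one + H.one ⊗ₜ κ := by
  have h1 : ∀ l, 0 < l → l ≠ i → (H.P l).lTensor T (H.Del κ) = 0 := by
    intro l hl0 hli
    apply eq_zero_of_ctr
    intro f
    rw [ctr_lT]
    set f' := f ∘ₗ H.P l with hf'
    have hf : f' ∘ₗ H.P l = f' := by
      ext t; simp [hf', H.P_P]
    set t := ctr T f' (H.Del κ) with ht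
    by_cases hlt : l < i
    · have h2 : t = H.P (i - l) t := by
        apply H.eq_P_of
        intro m hm
        exact H.P_ctr f' l i m hf (by omega) κ hP
      refine ih (i - l) (by omega) (by omega) t h2.symm ?_
      intro j
      rw [ht, ← ctr_rT, ← H.Del_lam, hl j]; simp
    · obtain ⟨N, hN⟩ := H.P_sum t
      rw [hN N le_rfl]
      apply Finset.sum_eq_zero
      intro m _
      exact H.P_ctr f' l i m hf (by omega) κ hP
  obtain ⟨N, hN⟩ := H.P_sum_lT (H.Del κ)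
  have hM := hN (max N (i+1)) (le_max_left _ _)
  have h0 : (H.P 0).lTensor T (H.Del κ) = κ ⊗ₜ H.one := by
    have : ∀ z : T ⊗[k] T, (H.P 0).lTensor T z = (ctr T H.eps z) ⊗ₜ H.one := by
      intro z
      induction z with
      | zero => simp
      | add a b ha hb => simp only [map_add, ha, hb, add_tmul]
      | tmul u v => simp [H.P_zero, smul_tmul]
    rw [this]
    congr 1
    exact H.cou_r κ
  have hi' := H.P_Del_self i κ hP
  have hs : ({0, i} : Finset ℕ) ⊆ Finset.range (max N (i+1)) := by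
    intro a ha
    simp only [Finset.mem_insert, Finset.mem_singleton] at ha
    rw [Finset.mem_range]
    rcases ha with rfl | rfl <;> omega
  have h2 : ∑ l ∈ Finset.range (max N (i+1)), (H.P l).lTensor T (H.Del κ) =
      (H.P 0).lTensor T (H.Del κ) + (H.P i).lTensor T (H.Del κ) := by
    rw [← Finset.sum_subset hs, Finset.sum_pair (by omega)]
    intro a _ ha
    simp only [Finset.mem_insert, Finset.mem_singleton, not_or] at ha
    exact h1 a (Nat.pos_of_ne_zero ha.1) ha.2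
  calc H.Del κ = _ := hM
    _ = _ := h2
    _ = _ := by rw [h0, hi']

/-- the Heisenberg type relation for primitive `κ` -/
theorem heis (i : ℕ) (_hi : 1 ≤ i) (κ : T) (hP : H.P i κ = κ) (hD : H.Del κ = κ ⊗ₜ H.one + H.one ⊗ₜ κ)
    (f : T →ₗ[k] k) (hf : f ∘ₗ H.P i = f) (hfκ : f κ = 1) (t : T) :
    ctr T f (H.Del (H.mu κ t)) = H.mu κ (ctr T f (H.Del t)) + (if Even i then t else H.J t) := by
  have hone : H.P 0 H.one = H.one := by rw [H.P_zero, H.eps_one, one_smul]
  have e1 : H.ev H.one = H.one := by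
    rw [← hone, H.ev_P]; simp
  have e2 : H.od H.one = 0 := by
    rw [← hone, H.od_P]; simp
  have e3 : ∀ z, SS H.mu H.J H.ev H.od (H.one ⊗ₜ κ) z = (if Even i then z else H.J z) ⊗ₜ κ := by
    intro z
    rw [SS_tmul, H.one_mu, H.one_mu, ← hP, H.ev_P, H.od_P]
    by_cases h : Even i <;> simp [h]
  have e4 : ∀ s, f (H.mu κ s) = H.eps s := by
    intro s
    obtain ⟨N, hN⟩ := H.P_sum s
    have h1 : f (H.mu κ s) = f (H.mu κ (H.P 0 s)) := by
      conv_lhs => rw [hN (N+1) (Nat.le_succ N)]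
      rw [map_sum, map_sum, Finset.sum_eq_single 0]
      · intro l _ hl
        rw [← hf, LinearMap.comp_apply]
        nth_rewrite 1 [← hP]
        rw [H.P_mu i l i _ _ (by omega), map_zero]
      · simp
    rw [h1, H.P_zero, map_smul, H.mu_one, map_smul, hfκ, smul_eq_mul, mul_one]
  obtain ⟨W, hW⟩ : ∃ W, W = SS H.mu H.J H.ev H.od (κ ⊗ₜ H.one + H.one ⊗ₜ κ) := ⟨_, rfl⟩
  have e7 : ∀ z s, ctr T f (MR T H.mu (W.rTensor T (z ⊗ₜ s))) =
      H.mu κ (ctr T f (z ⊗ₜ s)) + (if Even i then ctr T H.eps (z ⊗ₜ s) else H.J (ctr T H.eps (z ⊗ₜ s))) := by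
    intro z s
    rw [hW, LinearMap.rTensor_tmul, map_add, LinearMap.add_apply, e3, SS_tmul, e1, e2, add_tmul, map_add, map_add]
    simp only [tmul_zero, add_zero, MR_tmul, H.one_mu, ctr_tmul, map_smul, e4]
    split_ifs <;> simp
  have e5 : ∀ w : T ⊗[k] T, ctr T f (MR T H.mu (W.rTensor T w)) =
      H.mu κ (ctr T f w) + (if Even i then ctr T H.eps w else H.J (ctr T H.eps w)) := by
    intro w
    induction w with
    | zero => simp
    | add a b ha hb =>
      simp only [map_add, ha, hb]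
      split_ifs <;> abel
    | tmul z s => exact e7 z s
  have e6 : ctr T H.eps (H.Del t) = t := H.cou_r t
  rw [H.Del_mu, hD, ← hW, e5, e6]

end HT

variable {X : Type*} [AddCommGroup X] [Module k X] {H : HT k T ι} {x : ι → G}

namespace XD
variable (D : XD H x X)
include D

theorem ctr_DK (f : T →ₗ[k] k) (z : G ⊗[k] T) : ctr _ f (DK G H z) = (ctr T f ∘ₗ H.Del).lTensor G z := by
  induction z with
  | zero => simp
  | add a b ha hb => simp only [map_add, ha, hb]
  | tmul g t =>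
    simp only [DK, LinearMap.comp_apply, LinearMap.lTensor_tmul, LinearEquiv.coe_coe]
    induction H.Del t with
    | zero => simp
    | add a b ha hb => simp only [tmul_add, map_add, ha, hb]
    | tmul u v => simp

theorem key0_aux [Module.Finite k X] (hχ : LinearMap.trace k X D.JX ≠ 0) (i : ℕ) (hi : 1 ≤ i)
    (κ : T) (hP : H.P i κ = κ) (hl : ∀ j, H.lam j κ = 0)
    (ih : ∀ l, 1 ≤ l → l < i → ∀ t, H.P l t = t → (∀ j, H.lam j t = 0) → t = 0) : κ = 0 := by
  by_contra hne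
  have hD := H.primitive i hi κ hP hl ih
  obtain ⟨f0, hf0⟩ : ∃ f0 : T →ₗ[k] k, f0 κ = 1 := by
    obtain ⟨f1, hf1⟩ : ∃ f1 : Module.Dual k T, f1 κ ≠ 0 := by
      by_contra hcon
      push Not at hcon
      exact hne ((Module.forall_dual_apply_eq_zero_iff k κ).1 hcon)
    exact ⟨(f1 κ)⁻¹ • f1, by simp [hf1]⟩
  set f := f0 ∘ₗ H.P i with hfdef
  have hf : f ∘ₗ H.P i = f := by ext t; simp [hfdef, H.P_P]
  have hfκ : f κ = 1 := by simp [hfdef, hP, hf0]
  have hfJ : f ∘ₗ H.J = (-1 : k)^i • f := by ext t; simp [hfdef, H.P_J]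
  set ρ : G ⊗[k] T →ₗ[k] G ⊗[k] T := ctr _ f ∘ₗ DK G H with hρ
  set ρX : X →ₗ[k] X := ctr _ f ∘ₗ D.DX with hρX
  set κ' : G ⊗[k] T := (1 : G) ⊗ₜ κ with hκ'
  -- commutation rules
  have r1 : ∀ z, D.inc (ρX z) = ρ (D.inc z) := by
    intro z; simp only [hρ, hρX, LinearMap.comp_apply, ← ctr_rT, D.inc_DX]
  have r2 : ∀ z, ρ (dK H x z) = dK H x (ρ z) := by
    intro z; simp only [hρ, LinearMap.comp_apply, DK_dK, ctr_rT]
  have r3 : ∀ z, ρ (JK G H z) = (-1 : k)^i • JK G H (ρ z) := by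
    intro z
    simp only [hρ, LinearMap.comp_apply, DK_JK]
    induction DK G H z with
    | zero => simp
    | add a b ha hb => simp only [map_add, ha, hb, smul_add]
    | tmul u v =>
      have := LinearMap.congr_fun hfJ v
      simp only [LinearMap.comp_apply, LinearMap.smul_apply, smul_eq_mul] at this
      simp [this, smul_smul]
  have r4 : ∀ z, ρX (D.dX z) = D.dX (ρX z) := by
    intro z; apply D.inc_inj; rw [r1, D.inc_dX, r2, D.inc_dX, r1]
  have r5 : ∀ z, ρX (D.JX z) = (-1 : k)^i • D.JX (ρX z) := by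
    intro z; apply D.inc_inj; rw [r1, D.inc_JX, r3, map_smul, D.inc_JX, r1]
  have r6 : ∀ z, ρ (LK G H κ' z) = LK G H κ' (ρ z) + (if Even i then z else JK G H z) := by
    intro z
    simp only [hρ, LinearMap.comp_apply, D.ctr_DK]
    induction z with
    | zero => simp
    | add a b ha hb =>
      simp only [map_add, ha, hb]
      split_ifs <;> abel
    | tmul g t =>
      have hh := H.heis i hi κ hP hD f hf hfκ t
      simp only [hκ', LK_tmul, one_mul, LinearMap.lTensor_tmul, LinearMap.comp_apply, hh, tmul_add]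
      split_ifs <;> simp
  -- decomposition of Λ
  set Λ := LK G H κ' ∘ₗ D.inc with hΛ
  have hd : dK H x κ' = 0 := by simp [hκ', hl]
  have h1 : D.Dop Λ = 0 := by rw [hΛ, D.Dop_L, hd]; simp
  set Ψ := D.Sop Λ with hΨ
  have h2 : ∀ z, Λ z = D.inc (D.Pop Λ z) + D.Dop Ψ z := by
    have := D.Sop_Dop Λ
    rw [h1, map_zero] at this
    intro z
    have hz := LinearMap.congr_fun this z
    simp only [LinearMap.zero_apply, LinearMap.sub_apply] at hz
    rw [← sub_eq_zero, ← sub_sub]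
    exact hz.symm
  have t1 : ∀ z, ρX (D.tau i z) = (-1 : k)^i • D.tau i (ρX z) := by
    intro z
    unfold tau; split_ifs with h
    · simp [h.neg_one_pow]
    · simp [r5]
  -- the trace computation
  have h3 : D.JX ∘ₗ D.tau i ∘ₗ (D.Pop (ρ ∘ₗ Λ) - D.Pop Λ ∘ₗ ρX) = D.JX := by
    ext z
    have e : ρ (Λ z) = Λ (ρX z) + D.inc (D.tau i z) := by
      simp only [hΛ, LinearMap.comp_apply, r1, r6]
      congr 1
      unfold tau; split_ifs <;> simp [D.inc_JX]
    simp only [LinearMap.comp_apply, LinearMap.sub_apply, Pop_apply, e, map_add, D.pr_inc, add_sub_cancel_left,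
      D.tau_tau]
  have h4 : D.Pop (ρ ∘ₗ Λ) - D.Pop Λ ∘ₗ ρX = (ρX ∘ₗ D.Pop Λ - D.Pop Λ ∘ₗ ρX) +
      (D.dX ∘ₗ (D.Pop (ρ ∘ₗ Ψ) - D.Pop Ψ ∘ₗ ρX) -
        (-1 : k)^i • (D.JX ∘ₗ (D.Pop (ρ ∘ₗ Ψ) - D.Pop Ψ ∘ₗ ρX) ∘ₗ D.JX ∘ₗ D.dX)) := by
    ext z
    have e0 : D.pr (D.Dop Ψ (ρX z)) = D.pr (Λ (ρX z)) - D.pr (Λ (ρX z)) := by
      have := h2 (ρX z)
      rw [this, map_add, D.pr_inc, Pop_apply, this, map_add, D.pr_inc, Pop_apply]
      have h5 : D.pr (Λ (ρX z)) = D.pr (Λ (ρX z)) + D.pr (D.Dop Ψ (ρX z)) := by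
        conv_lhs => rw [this, map_add, D.pr_inc, Pop_apply]
      have h6 : D.pr (D.Dop Ψ (ρX z)) = 0 := by
        have := h5
        rwa [left_eq_add] at this
      rw [h6]; simp
    have e00 : D.pr (D.Dop Ψ (ρX z)) = 0 := by rw [e0, sub_self]
    have e1 : D.pr (ρ (Λ z)) = ρX (D.pr (Λ z)) + D.pr (ρ (D.Dop Ψ z)) := by
      conv_lhs => rw [h2 z, map_add, map_add, ← r1, D.pr_inc, Pop_apply]
    have e2 : D.pr (ρ (D.Dop Ψ z)) = D.dX (D.pr (ρ (Ψ z))) - (-1 : k)^i • D.JX (D.pr (ρ (Ψ (D.JX (D.dX z))))) := by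
      rw [Dop_apply, map_sub, map_sub, r2, D.pr_dK, r3, map_smul, D.pr_JK]
    have e3 : D.pr (D.Dop Ψ (ρX z)) = D.dX (D.pr (Ψ (ρX z))) - (-1 : k)^i • D.JX (D.pr (Ψ (ρX (D.JX (D.dX z))))) := by
      rw [Dop_apply, map_sub, D.pr_dK, D.pr_JK, r5, r4, map_smul, map_smul, map_smul, smul_smul, sq1, one_smul]
    rw [e00] at e3
    simp only [LinearMap.comp_apply, LinearMap.sub_apply, LinearMap.add_apply, LinearMap.smul_apply, Pop_apply,
      map_sub, e1, e2, smul_sub]
    rw [← sub_eq_zero.1 e3.symm]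
    abel
  have h5 : LinearMap.trace k X (D.JX ∘ₗ D.tau i ∘ₗ (ρX ∘ₗ D.Pop Λ - D.Pop Λ ∘ₗ ρX)) = 0 := by
    have : D.JX ∘ₗ D.tau i ∘ₗ (ρX ∘ₗ D.Pop Λ - D.Pop Λ ∘ₗ ρX) =
      ρX ∘ₗ (D.JX ∘ₗ D.tau i ∘ₗ D.Pop Λ) - (D.JX ∘ₗ D.tau i ∘ₗ D.Pop Λ) ∘ₗ ρX := by
      ext z
      simp only [LinearMap.comp_apply, LinearMap.sub_apply, map_sub, r5, t1, map_smul, smul_smul, sq1, one_smul]
    rw [this, map_sub, LinearMap.trace_comp_comm', sub_self]
  have h6 : ∀ θ : X →ₗ[k] X, LinearMap.trace k X (D.JX ∘ₗ D.tau i ∘ₗ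
      (D.dX ∘ₗ θ - (-1 : k)^i • (D.JX ∘ₗ θ ∘ₗ D.JX ∘ₗ D.dX))) = 0 := by
    intro θ
    have : D.JX ∘ₗ D.tau i ∘ₗ (D.dX ∘ₗ θ - (-1 : k)^i • (D.JX ∘ₗ θ ∘ₗ D.JX ∘ₗ D.dX)) =
      (-1 : k)^i • (D.JX ∘ₗ (D.dX ∘ₗ (D.tau i ∘ₗ θ) - D.JX ∘ₗ (D.tau i ∘ₗ θ) ∘ₗ D.JX ∘ₗ D.dX)) := by
      ext z
      simp only [LinearMap.comp_apply, LinearMap.sub_apply, LinearMap.smul_apply, map_sub, map_smul, D.dX_tau,
        smul_sub, smul_smul, sq1, one_smul, D.JX_tau]
    rw [this, map_smul, D.str_comm, smul_zero]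
  apply hχ
  rw [← h3, h4, LinearMap.comp_add, LinearMap.comp_add, map_add, h5, h6, add_zero]

/-- vanishing in `G`-degree zero -/
theorem key0 [Module.Finite k X] (hχ : LinearMap.trace k X D.JX ≠ 0) (i : ℕ) : 1 ≤ i →
    ∀ κ : T, H.P i κ = κ → (∀ j, H.lam j κ = 0) → κ = 0 := by
  induction i using Nat.strong_induction_on with
  | _ i ih =>
    intro hi κ hP hl
    exact D.key0_aux hχ i hi κ hP hl (fun l h1 h2 t => ih l h2 h1 t)

end XD
end Pool.Agent.N38.LU
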