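import Mathlib
/-! Minimal free resolution of the residue field as one based module. -/
universe u
set_option autoImplicit false
open IsLocalRing

namespace Pool.Agent.N38.LU

/-- a minimal free resolution `F = ⨁ F_n` of the residue field, with basis `B` (`deg β` = homological
degree), as one module `B →₀ R` with differential `d`; `F_0 = R · one`, augmentation `z ↦ z one` mod `m`. -/
structure Res (R : Type u) (B : Type) [CommRing R] [IsLocalRing R] where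
  deg : B → ℕ
  one : B
  d : (B →₀ R) →ₗ[R] (B →₀ R)
  deg_one : deg one = 0
  uniq : ∀ β, deg β = 0 → β = one
  dd : ∀ z, d (d z) = 0
  d_deg : ∀ β γ, d (Finsupp.single β 1) γ ≠ 0 → deg γ + 1 = deg β
  d_min : ∀ z γ, d z γ ∈ maximalIdeal R
  ex : ∀ n z, (∀ γ, z γ ≠ 0 → deg γ = n) → d z = 0 → z one ∈ maximalIdeal R →
    ∃ z', (∀ γ, z' γ ≠ 0 → deg γ = n + 1) ∧ d z' = z

/-- embedding of the degree `n` part -/
noncomputable def emb (R : Type u) [CommRing R] (b : ℕ → ℕ) (n : ℕ) :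
    (Fin (b n) → R) →ₗ[R] ((Σ n, Fin (b n)) →₀ R) :=
  ∑ i : Fin (b n), (Finsupp.lsingle (⟨n, i⟩ : Σ n, Fin (b n))) ∘ₗ (LinearMap.proj i)

/-- exactness of the linear part at `(homological degree i, m-adic degree j)`, untyped -/
def ExAt {R : Type u} {B : Type} [CommRing R] [IsLocalRing R] (X : Res R B) (i j : ℕ) : Prop :=
  ∀ z : B →₀ R, (∀ γ, z γ ≠ 0 → X.deg γ = i) → (∀ γ, z γ ∈ maximalIdeal R ^ j) →
    (∀ γ, X.d z γ ∈ maximalIdeal R ^ (j + 2)) →
    ∃ z1 z2 : B →₀ R, z = z1 + X.d z2 ∧ (∀ γ, z1 γ ≠ 0 → X.deg γ = i) ∧ (∀ γ, z2 γ ≠ 0 → X.deg γ = i + 1) ∧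
      (∀ γ, z1 γ ∈ maximalIdeal R ^ (j + 1)) ∧ (∀ γ, z2 γ ∈ maximalIdeal R ^ (j - 1))

end Pool.Agent.N38.LU
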