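import Pool.Agent.N38.LU.B5
/-! Multiplicativity of the coproduct and the structure `HT`. -/
universe u
set_option autoImplicit false
set_option linter.unusedSectionVars false
set_option linter.unusedVariables false
open IsLocalRing TensorProduct

namespace Pool.Agent.N38.LU

variable {R : Type u} {B : Type} [CommRing R] [IsLocalRing R] {X : Res R B}


namespace Res
namespace HR
variable (Y : HR X)

/-- the product as a bilinear map over `R` -/
noncomputable def mR : (B →₀ R) →ₗ[R] (B →₀ R) →ₗ[R] (B →₀ R) := TensorProduct.curry Y.m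

theorem mR_apply (x y : (B →₀ R)) : Y.mR x y = Y.m (x ⊗ₜ y) := rfl

/-- the star product over `R` -/
noncomputable def star2 : (B →₀ R) ⊗[R] (B →₀ R) →ₗ[R] (B →₀ R) ⊗[R] (B →₀ R) →ₗ[R] (B →₀ R) ⊗[R] (B →₀ R) :=
  LinearMap.mk₂ R (fun w w' => MR (B →₀ R) (Y.mR) ((SS Y.mR X.J (evg R X.deg) (odg R X.deg) w).rTensor (B →₀ R) w'))
    (by intro a b c; rw [map_add, LinearMap.rTensor_add, LinearMap.add_apply, map_add])
    (by intro c a b; rw [map_smul, LinearMap.rTensor_smul, LinearMap.smul_apply, map_smul])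
    (by intro a b c; rw [map_add, map_add])
    (by intro c a b; rw [map_smul, map_smul])

theorem star2_tmul (u s v t : (B →₀ R)) : Y.star2 (u ⊗ₜ s) (v ⊗ₜ t) =
    Y.m (u ⊗ₜ v) ⊗ₜ Y.m (evg R X.deg s ⊗ₜ t) + Y.m (u ⊗ₜ X.J v) ⊗ₜ Y.m (odg R X.deg s ⊗ₜ t) := by
  simp [star2, mR_apply, add_tmul]

theorem red_ev (x : (B →₀ R)) : red R B (evg R X.deg x) = evg (ResidueField R) X.deg (red R B x) := by
  simp only [evg, red_dg]
  congr 1; congr 1; ext β; split_ifs <;> simp

theorem red_od (x : (B →₀ R)) : red R B (odg R X.deg x) = odg (ResidueField R) X.deg (red R B x) := by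
  simp only [odg, red_dg]
  congr 1; congr 1; ext β; split_ifs <;> simp

theorem redd_star2 (w w' : (B →₀ R) ⊗[R] (B →₀ R)) : redd R B (Y.star2 w w') =
    MR (B →₀ ResidueField R) Y.muT ((SS Y.muT (Jg (ResidueField R) X.deg) (evg (ResidueField R) X.deg) (odg (ResidueField R) X.deg) (redd R B w)).rTensor (B →₀ ResidueField R) (redd R B w')) := by
  induction w with
  | zero => simp
  | add a b ha hb => rw [map_add, LinearMap.add_apply, map_add, ha, hb, map_add, map_add, LinearMap.rTensor_add,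
      LinearMap.add_apply, map_add]
  | tmul u s =>
    induction w' with
    | zero => simp
    | add a b ha hb => simp only [map_add, ha, hb]
    | tmul v t =>
      rw [star2_tmul, map_add, redd_tmul, redd_tmul, redd_tmul, redd_tmul, LinearMap.rTensor_tmul, SS_tmul,
        add_tmul, map_add, MR_tmul, MR_tmul, ← red_ev, ← red_od, ← red_J, muT_red, muT_red, muT_red, muT_red]

theorem evJ (x : (B →₀ R)) : evg R X.deg (X.J x) = evg R X.deg x := by
  ext γ
  simp only [evg, J, dg_apply]
  split_ifs with h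
  · rw [h.neg_one_pow]; simp
  · simp

theorem odJ (x : (B →₀ R)) : odg R X.deg (X.J x) = - odg R X.deg x := by
  ext γ
  simp only [odg, J, dg_apply, Finsupp.neg_apply]
  split_ifs with h
  · simp
  · rw [(Nat.not_even_iff_odd.1 h).neg_one_pow]; simp

theorem ev_add_od (x : (B →₀ R)) : evg R X.deg x + odg R X.deg x = x := by
  ext γ
  simp only [evg, odg, dg_apply, Finsupp.add_apply]
  split_ifs with h <;> simp

theorem m_neg (z : (B →₀ R) ⊗[R] (B →₀ R)) : Y.m (-z) = - Y.m z := map_neg Y.m z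

theorem star2_d (w w' : (B →₀ R) ⊗[R] (B →₀ R)) : X.d.rTensor (B →₀ R) (Y.star2 w w') =
    Y.star2 (X.d.rTensor (B →₀ R) w) w' + Y.star2 (TensorProduct.map X.J X.J w) (X.d.rTensor (B →₀ R) w') := by
  induction w with
  | zero => simp
  | add a b ha hb => simp only [map_add, LinearMap.add_apply, ha, hb]; abel
  | tmul u s =>
    induction w' with
    | zero => simp
    | add a b ha hb => simp only [map_add, ha, hb]; abel
    | tmul v t =>
      rw [star2_tmul, map_add, LinearMap.rTensor_tmul, LinearMap.rTensor_tmul, LinearMap.rTensor_tmul,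
        LinearMap.rTensor_tmul, TensorProduct.map_tmul, star2_tmul, star2_tmul, Y.m_d, Y.m_d, DFF_tmul, DFF_tmul,
        evJ, odJ, X.d_J, map_add, map_add, add_tmul, add_tmul]
      simp only [neg_tmul, tmul_neg]
      rw [m_neg, m_neg]
      simp only [neg_tmul, tmul_neg]
      abel

theorem alFF_star2 (w w' : (B →₀ R) ⊗[R] (B →₀ R)) : X.alFF (Y.star2 w w') = Y.muT (X.alFF w) (X.alFF w') := by
  induction w with
  | zero => simp
  | add a b ha hb => simp only [map_add, LinearMap.add_apply, ha, hb]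
  | tmul u s =>
    induction w' with
    | zero => simp
    | add a b ha hb => simp only [map_add, ha, hb]
    | tmul v t =>
      have hJ : X.J v X.one = v X.one := by simp [J, dg_apply, X.deg_one]
      rw [star2_tmul, map_add, alFF_tmul, alFF_tmul, alFF_tmul, alFF_tmul, Y.m_al, Y.m_al, hJ, ← smul_add, ← map_add,
        ← map_add, ← add_tmul, ev_add_od, ← muT_red]
      simp only [map_smul, LinearMap.smul_apply, smul_smul]
      rw [mul_comm]

theorem De_J (x : (B →₀ R)) : Y.De (X.J x) = TensorProduct.map X.J X.J (Y.De x) := by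
  induction x using Finsupp.induction_linear with
  | zero => simp
  | add a b ha hb => simp only [map_add, ha, hb]
  | single β b =>
    have e2 : Finsupp.single β b = b • Finsupp.single β (1 : R) := by simp
    rw [e2, map_smul, map_smul, map_smul, J_single, map_smul, map_smul]
    congr 1
    have h2 := map_grb (bFF R B) X.degFF (X.deg β) LinearMap.id
      (LinearMap.eqLocus (TensorProduct.map X.J X.J) ((-1 : R) ^ X.deg β • LinearMap.id)) ?_ (Y.De_gr β)
    · rw [LinearMap.mem_eqLocus] at h2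
      simp only [LinearMap.id_apply, LinearMap.smul_apply] at h2
      exact h2.symm
    · intro p hp
      rw [LinearMap.mem_eqLocus, LinearMap.id_apply, bFF_apply, TensorProduct.map_tmul, J_single, J_single]
      simp only [degFF] at hp
      rw [← hp, pow_add, ← smul_tmul', tmul_smul, LinearMap.smul_apply, LinearMap.id_apply, smul_smul]

theorem tmul_grb {m n : ℕ} {x y : (B →₀ R)} (hx : x ∈ grb (Finsupp.basisSingleOne (R := R)) X.deg m)
    (hy : y ∈ grb (Finsupp.basisSingleOne (R := R)) X.deg n) : x ⊗ₜ[R] y ∈ grb (bFF R B) X.degFF (m + n) := by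
  intro p hp
  rw [bFF_repr] at hp
  have h1 := hx p.1 (by simpa using fun h0 => hp (by rw [h0, mul_zero]))
  have h2 := hy p.2 (by simpa using fun h0 => hp (by rw [h0, zero_mul]))
  simp only [degFF]; rw [h1, h2]

theorem m_grb {m n : ℕ} {x y : (B →₀ R)} (hx : x ∈ grb (Finsupp.basisSingleOne (R := R)) X.deg m)
    (hy : y ∈ grb (Finsupp.basisSingleOne (R := R)) X.deg n) :
    Y.m (x ⊗ₜ[R] y) ∈ grb (Finsupp.basisSingleOne (R := R)) X.deg (m + n) := by
  refine map_grb (bFF R B) X.degFF (m+n) Y.m _ ?_ (tmul_grb hx hy)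
  intro p hp
  rw [← hp]; exact Y.m_gr p

theorem dg_grb {n : ℕ} {x : (B →₀ R)} (w : B → R) (hx : x ∈ grb (Finsupp.basisSingleOne (R := R)) X.deg n) :
    dg w x ∈ grb (Finsupp.basisSingleOne (R := R)) X.deg n := by
  intro i hi
  apply hx i
  intro h0
  apply hi
  simp only [Finsupp.basisSingleOne_repr, LinearEquiv.refl_apply] at h0 ⊢
  rw [dg_apply, h0, mul_zero]

theorem star2_grb {m n : ℕ} {w w' : (B →₀ R) ⊗[R] (B →₀ R)} (hw : w ∈ grb (bFF R B) X.degFF m)
    (hw' : w' ∈ grb (bFF R B) X.degFF n) : Y.star2 w w' ∈ grb (bFF R B) X.degFF (m + n) := by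
  refine map_grb (bFF R B) X.degFF m (Y.star2.flip w') _ ?_ hw
  intro p hp
  rw [LinearMap.flip_apply]
  refine map_grb (bFF R B) X.degFF n (Y.star2 (bFF R B p)) _ ?_ hw'
  intro q hq
  have hb : ∀ β : B, Finsupp.single β (1 : R) ∈ grb (Finsupp.basisSingleOne (R := R)) X.deg (X.deg β) := by
    intro β
    have := basis_mem_grb (Finsupp.basisSingleOne (R := R)) X.deg β
    simpa using this
  rw [bFF_apply, bFF_apply, star2_tmul]
  simp only [degFF] at hp hq
  have e : m + n = (X.deg p.1 + X.deg q.1) + (X.deg p.2 + X.deg q.2) := by omega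
  rw [e]
  refine Submodule.add_mem _ ?_ ?_
  · exact tmul_grb (Y.m_grb (hb _) (hb _)) (Y.m_grb (dg_grb _ (hb _)) (hb _))
  · exact tmul_grb (Y.m_grb (hb _) (dg_grb _ (hb _))) (Y.m_grb (dg_grb _ (hb _)) (hb _))

theorem Del_mu (s t : (B →₀ ResidueField R)) : Y.DelT (Y.muT s t) =
    MR (B →₀ ResidueField R) Y.muT ((SS Y.muT (Jg (ResidueField R) X.deg) (evg (ResidueField R) X.deg) (odg (ResidueField R) X.deg) (Y.DelT s)).rTensor (B →₀ ResidueField R) (Y.DelT t)) := by
  obtain ⟨x, rfl⟩ := red_surj s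
  obtain ⟨y, rfl⟩ := red_surj t
  rw [muT_red, DelT_red, DelT_red, DelT_red, ← redd_star2]
  let φ : (B →₀ R) ⊗[R] (B →₀ R) →ₗ[R] (B →₀ R) ⊗[R] (B →₀ R) := Y.De ∘ₗ Y.m + (-1 : R) • TensorProduct.lift (Y.star2.compl₁₂ Y.De Y.De)
  have hφ : ∀ x y, φ (x ⊗ₜ y) = Y.De (Y.m (x ⊗ₜ y)) + (-1 : R) • Y.star2 (Y.De x) (Y.De y) := by
    intro x y; simp [φ]
  have key := det3 X φ ?_ ?_ ?_ (x ⊗ₜ y)
  · have e : Y.De (Y.m (x ⊗ₜ y)) = φ (x ⊗ₜ y) + Y.star2 (Y.De x) (Y.De y) := by
      rw [hφ, add_assoc]
      have h1 : (-1 : R) • Y.star2 (Y.De x) (Y.De y) + Y.star2 (Y.De x) (Y.De y) = 0 := by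
        nth_rewrite 2 [← one_smul R (Y.star2 (Y.De x) (Y.De y))]
        rw [← add_smul, neg_add_cancel, zero_smul]
      rw [h1, add_zero]
    rw [e, map_add, key, zero_add]
  · intro p
    rw [bFF_apply, hφ]
    refine Submodule.add_mem _ ?_ (Submodule.smul_mem _ _ ?_)
    · refine map_grb (Finsupp.basisSingleOne (R := R)) X.deg (X.degFF p) Y.De _ ?_ ?_
      · intro i hi; rw [← hi]
        have := Y.De_gr i
        simpa using this
      · have := Y.m_gr p
        rwa [bFF_apply] at this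
    · exact Y.star2_grb (Y.De_gr _) (Y.De_gr _)
  · intro z
    induction z with
    | zero => simp
    | add a b ha hb => simp only [map_add, ha, hb]
    | tmul x y =>
      rw [hφ, DFF_tmul, map_add φ, hφ, hφ, map_add (X.d.rTensor (B →₀ R)), map_smul, Y.De_d, Y.m_d, DFF_tmul, star2_d, Y.De_d,
        Y.De_d, map_add Y.m, map_add Y.De, Y.De_J, smul_add]
      abel
  · intro z
    induction z with
    | zero => simp
    | add a b ha hb => simp only [map_add, ha, hb, add_zero]
    | tmul x y =>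
      rw [hφ, map_add, map_smul, Y.De_al, alFF_star2, Y.De_al, Y.De_al, muT_red]
      simp

end HR
end Res
end Pool.Agent.N38.LU
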