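import Pool.Agent.N38.LU.B6
import Pool.Agent.N38.LU.Bridge
/-! The structure `HT` on `T = Tor(k,k)`, compatibility and the quadratic relation. -/
universe u
set_option autoImplicit false
set_option linter.unusedSectionVars false
set_option linter.unusedVariables false
open IsLocalRing TensorProduct

namespace Pool.Agent.N38.LU

variable {R : Type u} {B : Type} [CommRing R] [IsLocalRing R] {X : Res R B}


theorem eq_zero_left {k G V : Type*} [Field k] [AddCommGroup G] [Module k G] [AddCommMonoid V] [Module k V]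
    (z : G ⊗[k] V) (h : ∀ f : G →ₗ[k] k, TensorProduct.lid k V (f.rTensor V z) = 0) : z = 0 := by
  classical
  let b := Module.Basis.ofVectorSpace k G
  apply (TensorProduct.equivFinsuppOfBasisLeft b (N := V)).injective
  rw [map_zero]
  ext i
  have : ∀ z : G ⊗[k] V, (TensorProduct.equivFinsuppOfBasisLeft b (N := V)) z i =
      TensorProduct.lid k V ((b.coord i).rTensor V z) := by
    intro z
    induction z with
    | zero => simp
    | add a b ha hb => simp [ha, hb]
    | tmul v t => simp [TensorProduct.equivFinsuppOfBasisLeft_apply_tmul_apply]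
  rw [this, h]; rfl

namespace Res
namespace HR
variable (Y : HR X)

theorem mu_j (j : B) (hj : X.deg j = 1) (a b : (B →₀ ResidueField R)) : Y.muT a b j = a j * b X.one + a X.one * b j := by
  have hJ : Jg (ResidueField R) X.deg a X.one = a X.one := by simp [Jg, dg_apply, X.deg_one]
  rw [← X.lamT_one j hj, Y.lam_mu, Finsupp.add_apply, Y.mu_eps, Y.mu_eps, X.lamT_one j hj, X.lamT_one j hj, hJ]

theorem rho_mu (j : B) (hj : X.deg j = 1) (s t : (B →₀ ResidueField R)) : Y.rhoT (Finsupp.lapply j) (Y.muT s t) =
    Y.muT (Y.rhoT (Finsupp.lapply j) s) (Jg (ResidueField R) X.deg t) + Y.muT s (Y.rhoT (Finsupp.lapply j) t) := by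
  have key : ∀ w w' : (B →₀ ResidueField R) ⊗[ResidueField R] (B →₀ ResidueField R), ctr (B →₀ ResidueField R) (Finsupp.lapply j)
      (MR (B →₀ ResidueField R) Y.muT ((SS Y.muT (Jg (ResidueField R) X.deg) (evg (ResidueField R) X.deg) (odg (ResidueField R) X.deg) w).rTensor (B →₀ ResidueField R) w')) =
      Y.muT (ctr (B →₀ ResidueField R) (Finsupp.lapply j) w) (Jg (ResidueField R) X.deg (ctr (B →₀ ResidueField R) (Finsupp.lapply X.one) w')) +
      Y.muT (ctr (B →₀ ResidueField R) (Finsupp.lapply X.one) w) (ctr (B →₀ ResidueField R) (Finsupp.lapply j) w') := by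
    intro w w'
    induction w with
    | zero => simp
    | add a b ha hb =>
      simp only [map_add, LinearMap.rTensor_add, LinearMap.add_apply, ha, hb]; abel
    | tmul u s =>
      induction w' with
      | zero => simp
      | add a b ha hb => simp only [map_add, ha, hb]; abel
      | tmul v t =>
        have e1 : evg (ResidueField R) X.deg s j = 0 := by simp [evg, dg_apply, hj]
        have e2 : odg (ResidueField R) X.deg s j = s j := by simp [odg, dg_apply, hj]
        have e3 : evg (ResidueField R) X.deg s X.one = s X.one := by simp [evg, dg_apply, X.deg_one]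
        have e4 : odg (ResidueField R) X.deg s X.one = 0 := by simp [odg, dg_apply, X.deg_one]
        rw [LinearMap.rTensor_tmul, SS_tmul, add_tmul, map_add, MR_tmul, MR_tmul, map_add, ctr_tmul, ctr_tmul,
          ctr_tmul, ctr_tmul, ctr_tmul, ctr_tmul, Finsupp.lapply_apply, Finsupp.lapply_apply, Finsupp.lapply_apply,
          Finsupp.lapply_apply, Finsupp.lapply_apply, Finsupp.lapply_apply, Y.mu_j j hj, Y.mu_j j hj, e1, e2, e3, e4]
        simp only [map_smul, LinearMap.smul_apply, smul_smul, zero_mul, zero_add, add_zero]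
        rw [add_comm, mul_comm (s X.one), mul_comm (s j)]
  have h1 : ∀ t, ctr (B →₀ ResidueField R) (Finsupp.lapply X.one) (Y.DelT t) = t := Y.cou_r
  simp only [rhoT, LinearMap.comp_apply]
  rw [Y.Del_mu, key, h1, h1]

theorem deg0_eq {f : (B →₀ ResidueField R) →ₗ[ResidueField R] (B →₀ ResidueField R)} (hf : Low X.deg 1 f) (j : B) (hj : X.deg j = 1) :
    f (Finsupp.single j 1) = Finsupp.single X.one (f (Finsupp.single j 1) X.one) := by
  classical
  ext γ
  rw [Finsupp.single_apply]
  split_ifs with h
  · rw [h]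
  · by_contra h1
    have := hf j γ h1
    exact h (X.uniq γ (by omega)).symm

section
variable [DecidableEq {β : B // X.deg β = 1}]

/-- the algebraic structure on `T` -/
noncomputable def ht : HT (ResidueField R) (B →₀ ResidueField R) {β : B // X.deg β = 1} where
  one := Finsupp.single X.one 1
  eps := Finsupp.lapply X.one
  P := Pg (ResidueField R) X.deg
  J := Jg (ResidueField R) X.deg
  ev := evg (ResidueField R) X.deg
  od := odg (ResidueField R) X.deg
  lam j := X.lamT j.1
  rho j := Y.rhoT (Finsupp.lapply j.1)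
  mu := Y.muT
  Del := Y.DelT
  tt j := Finsupp.single j.1 1
  JJ := by
    intro t; ext γ; simp only [Jg, dg_apply]; rw [← mul_assoc, ← mul_pow]; simp
  J_one := by rw [Jg_single, X.deg_one]; simp
  P_P := by
    intro i j t; ext γ
    by_cases h : i = j
    · simp only [Pg, dg_apply, h, if_true]; split_ifs <;> simp
    · simp only [Pg, dg_apply, h, if_false]
      by_cases h1 : X.deg γ = i
      · rw [if_neg (show ¬ X.deg γ = j by omega)]; simp
      · rw [if_neg h1]; simp
  P_sum := by
    intro t
    refine ⟨t.support.sup X.deg + 1, fun M hM => ?_⟩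
    ext γ
    rw [Finsupp.finsetSum_apply]
    simp only [Pg, dg_apply]
    by_cases h : t γ = 0
    · simp [h]
    · have h1 : X.deg γ < M := by
        have := Finset.le_sup (f := X.deg) (Finsupp.mem_support_iff.2 h)
        omega
      rw [Finset.sum_eq_single (X.deg γ)]
      · simp
      · intro b _ hb; rw [if_neg (fun h => hb h.symm), zero_mul]
      · intro h2; exact absurd (Finset.mem_range.2 h1) h2
  P_J := by
    intro i t; ext γ; simp only [Pg, Jg, dg_apply, Finsupp.smul_apply, smul_eq_mul]
    split_ifs with h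
    · rw [h]; ring
    · simp
  J_P := by
    intro i t; ext γ; simp only [Pg, Jg, dg_apply, Finsupp.smul_apply, smul_eq_mul]
    split_ifs with h
    · rw [h]
    · simp
  P_ev := by
    intro i t
    by_cases h : Even i
    · rw [if_pos h]; ext γ; simp only [Pg, evg, dg_apply]
      by_cases h1 : X.deg γ = i
      · rw [if_pos h1, if_pos (by rw [h1]; exact h)]; simp
      · rw [if_neg h1]; simp
    · rw [if_neg h]; ext γ; simp only [Pg, evg, dg_apply]
      by_cases h1 : X.deg γ = i
      · rw [if_pos h1, if_neg (by rw [h1]; exact h)]; simp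
      · rw [if_neg h1]; simp
  P_od := by
    intro i t
    by_cases h : Even i
    · rw [if_pos h]; ext γ; simp only [Pg, odg, dg_apply]
      by_cases h1 : X.deg γ = i
      · rw [if_pos h1, if_pos (by rw [h1]; exact h)]; simp
      · rw [if_neg h1]; simp
    · rw [if_neg h]; ext γ; simp only [Pg, odg, dg_apply]
      by_cases h1 : X.deg γ = i
      · rw [if_pos h1, if_neg (by rw [h1]; exact h)]; simp
      · rw [if_neg h1]; simp
  ev_P := by
    intro i t
    by_cases h : Even i
    · rw [if_pos h]; ext γ; simp only [Pg, evg, dg_apply]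
      by_cases h1 : X.deg γ = i
      · rw [if_pos h1, if_pos (by rw [h1]; exact h)]; simp
      · rw [if_neg h1]; simp
    · rw [if_neg h]; ext γ; simp only [Pg, evg, dg_apply]
      by_cases h1 : X.deg γ = i
      · rw [if_pos h1, if_neg (by rw [h1]; exact h)]; simp
      · rw [if_neg h1]; simp
  od_P := by
    intro i t
    by_cases h : Even i
    · rw [if_pos h]; ext γ; simp only [Pg, odg, dg_apply]
      by_cases h1 : X.deg γ = i
      · rw [if_pos h1, if_pos (by rw [h1]; exact h)]; simp
      · rw [if_neg h1]; simp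
    · rw [if_neg h]; ext γ; simp only [Pg, odg, dg_apply]
      by_cases h1 : X.deg γ = i
      · rw [if_pos h1, if_neg (by rw [h1]; exact h)]; simp
      · rw [if_neg h1]; simp
  P_zero := by
    classical
    intro t; ext γ
    rw [Pg, dg_apply, Finsupp.smul_apply, Finsupp.single_apply, smul_eq_mul, Finsupp.lapply_apply]
    by_cases h : X.deg γ = 0
    · rw [if_pos h, X.uniq γ h]; simp
    · rw [if_neg h, if_neg]
      · simp
      · intro h1; rw [← h1] at h; exact h X.deg_one
  eps_one := by simp
  eps_P := by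
    intro i t
    rw [Finsupp.lapply_apply, Finsupp.lapply_apply, Pg, dg_apply, X.deg_one]
    by_cases h : i = 0
    · rw [if_pos h, if_pos h.symm, one_mul]
    · rw [if_neg h, if_neg (fun h1 => h h1.symm), zero_mul]
  P_lam := fun i j t => (X.lamT_low j.1).P i t
  lam_P0 := fun j t => (X.lamT_low j.1).P0 t
  P_rho := by
    intro i j t
    have h := (Y.lift_rhoT _ _ (supp_lapply (X := X) j.1)).low
    rw [j.2] at h
    exact h.P i t
  rho_P0 := by
    intro j t
    have h := (Y.lift_rhoT _ _ (supp_lapply (X := X) j.1)).low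
    rw [j.2] at h
    exact h.P0 t
  P_mu := Y.P_mu
  P_Del := Y.P_Del
  J_lam := by
    intro j t
    rw [(X.lamT_low j.1).J t, pow_one, neg_smul, one_smul]
  J_rho := by
    intro j t
    have h := (Y.lift_rhoT _ _ (supp_lapply (X := X) j.1)).low
    rw [j.2] at h
    rw [h.J t, pow_one, neg_smul, one_smul]
  J_mu := Y.J_mu
  J_Del := Y.J_Del
  one_mu := Y.one_mu
  mu_one := Y.mu_one
  lam_mu := fun j s t => Y.lam_mu j.1 s t
  rho_mu := fun j s t => Y.rho_mu j.1 j.2 s t
  lam_rho := fun i j t => (Y.lift_rhoT _ _ (supp_lapply (X := X) j.1)).comm i.1 t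
  lam_tt := by
    intro i j
    rw [deg0_eq (X.lamT_low i.1) j.1 j.2, X.lamT_one i.1 i.2]
    by_cases h : i = j
    · rw [if_pos h, h]; simp
    · rw [if_neg h, Finsupp.single_eq_of_ne]
      · simp
      · intro h1; exact h (Subtype.ext h1)
  rho_tt := by
    intro i j
    have hl := (Y.lift_rhoT _ _ (supp_lapply (X := X) i.1)).low
    rw [i.2] at hl
    rw [deg0_eq hl j.1 j.2, Y.rhoT_one, Finsupp.lapply_apply]
    by_cases h : i = j
    · rw [if_pos h, h]; simp
    · rw [if_neg h, Finsupp.single_eq_of_ne]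
      · simp
      · intro h1; exact h (Subtype.ext h1)
  J_tt := by intro j; rw [Jg_single, j.2]; simp
  Del_lam := fun j t => Y.Del_lam j.1 t
  lam_Del := fun j t => Y.lam_Del j.1 j.2 t
  Del_mu := Y.Del_mu
  cou_r := Y.cou_r
  cou_l := Y.cou_l

variable {G : Type u} [CommRing G] [Algebra (ResidueField R) G] (D : GrData R G) [Fintype {β : B // X.deg β = 1}]

theorem mem1 (z : (B →₀ R)) (γ : B) : X.d z γ ∈ maximalIdeal R ^ 1 := by rw [pow_one]; exact X.d_min z γ

/-- the degree one generators of `G` -/
noncomputable def xg : {β : B // X.deg β = 1} → G :=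
  fun j => D.sym 1 ⟨X.d (Finsupp.single j.1 1) X.one, mem1 _ _⟩

theorem sym_sum' (n : ℕ) {κ : Type} (s : Finset κ) (f : κ → ↥(maximalIdeal R ^ n)) :
    D.sym n (∑ i ∈ s, f i) = ∑ i ∈ s, D.sym n (f i) := by
  classical
  have h0 : D.sym n 0 = 0 := by
    rw [D.sym_eq_zero]; exact Ideal.zero_mem _
  induction s using Finset.induction_on with
  | empty => simpa using h0
  | insert a s ha ih => rw [Finset.sum_insert ha, Finset.sum_insert ha, D.sym_add, ih]

theorem sym_cc (r : R) (hr : r ∈ maximalIdeal R ^ 1) :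
    D.sym 1 ⟨r, hr⟩ = ∑ j : {β : B // X.deg β = 1}, X.cc r j.1 • xg (X := X) D j := by
  classical
  obtain ⟨z, hz1, hz2⟩ := X.exists_lift1 r (by rwa [pow_one] at hr)
  have e1 : X.d z X.one = r := by rw [hz2]; simp
  have e2 : z = ∑ j : {β : B // X.deg β = 1}, z j.1 • Finsupp.single j.1 (1 : R) := by
    ext γ
    rw [Finsupp.finsetSum_apply]
    by_cases h : X.deg γ = 1
    · rw [Finset.sum_eq_single (⟨γ, h⟩ : {β : B // X.deg β = 1})]
      · simp
      · intro b _ hb
        rw [Finsupp.smul_apply, Finsupp.single_eq_of_ne, smul_zero]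
        intro h1; exact hb (Subtype.ext h1.symm)
      · simp
    · have h0 : z γ = 0 := by by_contra h1; exact h (hz1 γ h1)
      rw [h0, Finset.sum_eq_zero]
      intro b _
      rw [Finsupp.smul_apply, Finsupp.single_eq_of_ne, smul_zero]
      intro h1; rw [h1] at h; exact h b.2
  have e3 : (⟨r, hr⟩ : ↥(maximalIdeal R ^ 1)) = ∑ j : {β : B // X.deg β = 1},
      z j.1 • (⟨X.d (Finsupp.single j.1 1) X.one, mem1 _ _⟩ : ↥(maximalIdeal R ^ 1)) := by
    apply Subtype.ext
    rw [Submodule.coe_sum]
    show r = _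
    rw [← e1]
    conv_lhs => rw [e2]
    rw [map_sum, Finsupp.finsetSum_apply]
    refine Finset.sum_congr rfl fun j _ => ?_
    rw [map_smul, Finsupp.smul_apply]; rfl
  rw [e3, sym_sum']
  refine Finset.sum_congr rfl fun j _ => ?_
  rw [D.sym_smul, xg, ← e1, X.cc_d z hz1, red_apply]

/-- compatibility with the resolution -/
noncomputable def compat : Pool.Agent.N38.LU.N58.Compat X D Y.ht (xg D) where
  e := fun j => j.1
  e_deg := fun j => j.2
  e_surj := fun β h => ⟨⟨β, h⟩, rfl⟩
  x_eq := fun j h => rfl
  P_eq := by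
    intro n β a
    exact Pg_single n β a
  dK_eq := by
    classical
    intro β h
    rw [dK_tmul]
    have e : (Finsupp.single β (1 : (ResidueField R))) = red R B (Finsupp.single β 1) := by rw [red_single, map_one]
    have h1 : ∀ j : {β : B // X.deg β = 1}, Y.ht.lam j (Finsupp.single β 1) =
        ∑ γ ∈ (X.d (Finsupp.single β 1)).support, X.cc (X.d (Finsupp.single β 1) γ) j.1 • Finsupp.single γ (1 : (ResidueField R)) := by
      intro j
      show X.lamT j.1 _ = _
      rw [e, lamT_red]
      ext γ
      rw [cF_apply, Finsupp.finsetSum_apply]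
      by_cases h2 : X.d (Finsupp.single β 1) γ = 0
      · rw [h2, X.cc_zero, Finset.sum_eq_zero]
        · rfl
        · intro δ hδ
          rw [Finsupp.smul_apply, Finsupp.single_eq_of_ne, smul_zero]
          intro h3; rw [h3] at h2; exact (Finsupp.mem_support_iff.1 hδ) h2
      · rw [Finset.sum_eq_single γ]
        · simp
        · intro δ _ hδ
          rw [Finsupp.smul_apply, Finsupp.single_eq_of_ne, smul_zero]
          exact fun h3 => hδ h3.symm
        · intro h3; exact absurd (Finsupp.mem_support_iff.2 h2) h3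
    simp only [h1, mul_one, tmul_sum, tmul_smul]
    rw [Finset.sum_comm]
    refine Finset.sum_congr rfl fun γ hγ => ?_
    rw [sym_cc (X := X) D, sum_tmul]
    refine Finset.sum_congr rfl fun j _ => ?_
    rw [smul_tmul']

theorem quad : XD.Quad Y.ht (xg D) := by
  classical
  unfold XD.Quad
  set Z : G ⊗[ResidueField R] ((B →₀ ResidueField R) →ₗ[ResidueField R] (B →₀ ResidueField R)) := ∑ i, ∑ j, (xg D i * xg D j) ⊗ₜ[ResidueField R] (Y.ht.rho i ∘ₗ Y.ht.rho j) with hZ
  apply eq_zero_left
  intro f
  rw [hZ]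
  simp only [map_sum, LinearMap.rTensor_tmul, TensorProduct.lid_tmul]
  have hL : X.Lift 2 (∑ i : {β : B // X.deg β = 1}, ∑ j : {β : B // X.deg β = 1},
      f (xg D i * xg D j) • (Y.rhoT (Finsupp.lapply i.1) ∘ₗ Y.rhoT (Finsupp.lapply j.1))) := by
    apply Lift.sum; intro i _
    apply Lift.sum; intro j _
    apply Lift.smul
    have h1 := Y.lift_rhoT _ _ (supp_lapply (X := X) i.1)
    have h2 := Y.lift_rhoT _ _ (supp_lapply (X := X) j.1)
    rw [i.2] at h1; rw [j.2] at h2
    exact h1.comp h2
  refine hL.eq_zero ?_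
  intro t
  have hd := Pool.Agent.N38.LU.N58.dK_dK (Y.compat D) ((1 : G) ⊗ₜ[ResidueField R] t)
  have hd2 := congrArg (fun z => f (TensorProduct.rid (ResidueField R) G ((Finsupp.lapply X.one).lTensor G z))) hd
  simp only [dK_tmul, map_sum, mul_one, LinearMap.lTensor_tmul, TensorProduct.rid_tmul, Finsupp.lapply_apply,
    map_smul, map_zero] at hd2
  simp only [LinearMap.sum_apply, LinearMap.smul_apply, LinearMap.comp_apply, Finsupp.finsetSum_apply,
    Finsupp.smul_apply]
  rw [← hd2, Finset.sum_comm]
  rw [Finset.sum_comm]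
  refine Finset.sum_congr rfl fun i _ => Finset.sum_congr rfl fun j _ => ?_
  show f (xg D i * xg D j) • (Y.rhoT (Finsupp.lapply i.1) (Y.rhoT (Finsupp.lapply j.1) t)) X.one =
    (X.lamT j.1 (X.lamT i.1 t)) X.one • f (xg D j * xg D i)
  rw [Y.rhoT_one, Finsupp.lapply_apply, ← X.lamT_one i.1 i.2,
    (Y.lift_rhoT _ _ (supp_lapply (X := X) j.1)).comm i.1 t, Y.rhoT_one, Finsupp.lapply_apply,
    X.lamT_one j.1 j.2, smul_eq_mul, smul_eq_mul, mul_comm, mul_comm (xg D i)]

end
end HR
end Res
end Pool.Agent.N38.LU
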