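import Mathlib
/-! Statement file 2 for the proof of `ld_R(k) < ∞ ⇒ R` Koszul: associated graded ring as an interface. -/
universe u
set_option autoImplicit false
open IsLocalRing TensorProduct

namespace Pool.Agent.N38.LU

/-- `G` is the associated graded ring of the local ring `R`: `sym n` is the symbol map
`m^n → G_n`, `pi n : G → G` the projection to the degree `n` part. -/
structure GrData (R : Type u) [CommRing R] [IsLocalRing R] (G : Type u) [CommRing G]
    [Algebra (ResidueField R) G] where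
  sym : ∀ n : ℕ, ↥(maximalIdeal R ^ n) → G
  sym_add : ∀ n a b, sym n (a + b) = sym n a + sym n b
  sym_smul : ∀ n (r : R) a, sym n (r • a) = residue R r • sym n a
  sym_one : ∀ h : (1 : R) ∈ maximalIdeal R ^ 0, sym 0 ⟨1, h⟩ = 1
  sym_mul : ∀ m n (a : ↥(maximalIdeal R ^ m)) (b : ↥(maximalIdeal R ^ n))
    (h : (a : R) * (b : R) ∈ maximalIdeal R ^ (m + n)), sym (m + n) ⟨(a : R) * (b : R), h⟩ = sym m a * sym n b
  sym_eq_zero : ∀ n (a : ↥(maximalIdeal R ^ n)), sym n a = 0 ↔ (a : R) ∈ maximalIdeal R ^ (n + 1)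
  pi : ℕ → G →ₗ[ResidueField R] G
  pi_sym : ∀ m n (a : ↥(maximalIdeal R ^ n)), pi m (sym n a) = if m = n then sym n a else 0
  pi_mem : ∀ n g, ∃ a, pi n g = sym n a
  pi_sum : ∀ g, ∃ N, ∀ M, N ≤ M → g = ∑ i ∈ Finset.range M, pi i g

end Pool.Agent.N38.LU
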