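import Mathlib
import Pool.Agent.N38.LU.Stm2
/-! The associated graded ring of a local ring as a quotient of the Rees algebra, with the interface
`GrData` of `Pool/Agent/N38/LD/Stm2.lean`. -/
universe u
set_option autoImplicit false
open IsLocalRing TensorProduct Polynomial

namespace Pool.Agent.N38.LU.N763

open Pool.Agent.N38.LU

section Construct

variable (R : Type u) [CommRing R] [IsLocalRing R]

/-- the Rees algebra of the maximal ideal -/
abbrev A : Subalgebra R R[X] := reesAlgebra (maximalIdeal R)

/-- the ideal of the elements of the Rees algebra with coefficients one step deeper -/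
def I : Ideal (A R) where
  carrier := {p | ∀ n, (p : R[X]).coeff n ∈ maximalIdeal R ^ (n + 1)}
  add_mem' := by
    intro a b ha hb n
    simp only [Subalgebra.coe_add, coeff_add]
    exact Ideal.add_mem _ (ha n) (hb n)
  zero_mem' := by
    intro n
    simp
  smul_mem' := by
    intro c x hx n
    simp only [smul_eq_mul, Subalgebra.coe_mul, coeff_mul]
    refine Ideal.sum_mem _ fun ij hij => ?_
    have hij := Finset.HasAntidiagonal.mem_antidiagonal.1 hij
    have h1 : (c : R[X]).coeff ij.1 ∈ maximalIdeal R ^ ij.1 :=
      (mem_reesAlgebra_iff _ _).1 c.2 ij.1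
    have h2 := Ideal.mul_mem_mul h1 (hx ij.2)
    rw [← pow_add] at h2
    have h3 : ij.1 + (ij.2 + 1) = n + 1 := by omega
    rwa [h3] at h2

lemma mem_I (p : A R) : p ∈ I R ↔ ∀ n, (p : R[X]).coeff n ∈ maximalIdeal R ^ (n + 1) := Iff.rfl

/-- the associated graded ring -/
def G : Type u := (A R) ⧸ (I R)

noncomputable instance : CommRing (G R) := inferInstanceAs (CommRing ((A R) ⧸ (I R)))

/-- the quotient map -/
noncomputable def mk : A R →+* G R := Ideal.Quotient.mk (I R)

lemma mk_surjective : Function.Surjective (mk R) := Ideal.Quotient.mk_surjective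

lemma mk_eq_zero (p : A R) : mk R p = 0 ↔ p ∈ I R := Ideal.Quotient.eq_zero_iff_mem

/-- homogeneous element of the Rees algebra -/
noncomputable def mono (n : ℕ) (a : R) (h : a ∈ maximalIdeal R ^ n) : A R :=
  ⟨monomial n a, reesAlgebra.monomial_mem.2 h⟩

lemma coe_mono (n : ℕ) (a : R) (h : a ∈ maximalIdeal R ^ n) : ((mono R n a h : A R) : R[X]) = monomial n a := rfl

/-- the structure map from the residue field -/
noncomputable def str : ResidueField R →+* G R :=
  Ideal.Quotient.lift (maximalIdeal R) ((mk R).comp (algebraMap R (A R))) (by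
    intro a ha
    rw [RingHom.comp_apply, mk_eq_zero, mem_I]
    intro n
    have h1 : ((algebraMap R (A R) a : A R) : R[X]) = C a := rfl
    rw [h1, coeff_C]
    split_ifs with h
    · subst h
      simpa using ha
    · exact Ideal.zero_mem _)

lemma str_residue (r : R) : str R (residue R r) = mk R (algebraMap R (A R) r) := rfl

/-- algebra structure -/
noncomputable instance alg : Algebra (ResidueField R) (G R) := (str R).toAlgebra

/-- additive projection on the Rees algebra -/
noncomputable def prA (n : ℕ) : A R →+ A R where
  toFun p := mono R n ((p : R[X]).coeff n) ((mem_reesAlgebra_iff _ _).1 p.2 n)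
  map_zero' := by
    apply Subtype.ext
    simp [mono]
  map_add' := by
    intro p q
    apply Subtype.ext
    simp [mono]

lemma coe_prA (n : ℕ) (p : A R) : ((prA R n p : A R) : R[X]) = monomial n ((p : R[X]).coeff n) := rfl

lemma prA_mem (n : ℕ) (p : A R) (hp : p ∈ I R) : prA R n p ∈ I R := by
  rw [mem_I] at hp ⊢
  intro k
  rw [coe_prA, coeff_monomial]
  split_ifs with h
  · subst h
    exact hp n
  · exact Ideal.zero_mem _

/-- additive projection on the graded ring -/
noncomputable def prG (n : ℕ) : G R →+ G R :=
  QuotientAddGroup.map (I R).toAddSubgroup (I R).toAddSubgroup (prA R n) (fun p hp => prA_mem R n p hp)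

lemma prG_mk (n : ℕ) (p : A R) :
    prG R n (mk R p) = mk R (prA R n p) := rfl

lemma prA_smul (n : ℕ) (r : R) (p : A R) :
    prA R n (algebraMap R (A R) r * p) = algebraMap R (A R) r * prA R n p := by
  apply Subtype.ext
  rw [coe_prA, Subalgebra.coe_mul, Subalgebra.coe_mul, coe_prA]
  have h1 : ((algebraMap R (A R) r : A R) : R[X]) = C r := rfl
  rw [h1, coeff_C_mul, C_mul_monomial]

theorem exists_gr' : ∃ (G : Type u) (_ : CommRing G) (_ : Algebra (ResidueField R) G), Nonempty (GrData R G) := by
  refine ⟨G R, inferInstance, inferInstance, ?_⟩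
  have smul_def : ∀ (r : R) (g : G R), (residue R r) • g = mk R (algebraMap R (A R) r) * g := by
    intro r g
    rw [Algebra.smul_def]
    rfl
  let piG : ℕ → G R →ₗ[ResidueField R] G R := fun n =>
    { toFun := prG R n
      map_add' := map_add _
      map_smul' := by
        intro c g
        obtain ⟨r, rfl⟩ := residue_surjective c
        obtain ⟨p, rfl⟩ := mk_surjective R g
        show prG R n _ = (residue R r) • prG R n _
        rw [smul_def, smul_def, ← map_mul, prG_mk, prA_smul, map_mul, prG_mk] }
  have piG_mk : ∀ n (p : A R), piG n (mk R p) = mk R (prA R n p) :=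
    fun n p => rfl
  refine ⟨{
    sym := fun n a => mk R (mono R n a.1 a.2)
    sym_add := ?_
    sym_smul := ?_
    sym_one := ?_
    sym_mul := ?_
    sym_eq_zero := ?_
    pi := piG
    pi_sym := ?_
    pi_mem := ?_
    pi_sum := ?_ }⟩
  · intro n a b
    rw [← map_add]
    congr 1
    apply Subtype.ext
    simp [mono]
  · intro n r a
    rw [smul_def, ← map_mul]
    congr 1
    apply Subtype.ext
    rw [Subalgebra.coe_mul]
    have h1 : ((algebraMap R (A R) r : A R) : R[X]) = C r := rfl
    rw [h1, coe_mono, coe_mono, C_mul_monomial]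
    rfl
  · intro h
    rw [← map_one (mk R)]
    congr 1
  · intro m n a b h
    rw [← map_mul]
    congr 1
    apply Subtype.ext
    rw [Subalgebra.coe_mul, coe_mono, coe_mono, coe_mono, monomial_mul_monomial]
  · intro n a
    rw [mk_eq_zero, mem_I]
    constructor
    · intro h
      have := h n
      rwa [coe_mono, coeff_monomial_same] at this
    · intro h k
      rw [coe_mono, coeff_monomial]
      split_ifs with hk
      · subst hk
        exact h
      · exact Ideal.zero_mem _
  · intro m n a
    rw [piG_mk]
    split_ifs with h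
    · subst h
      congr 1
      apply Subtype.ext
      rw [coe_prA, coe_mono, coeff_monomial_same]
    · rw [mk_eq_zero, mem_I]
      intro k
      rw [coe_prA, coe_mono, coeff_monomial, coeff_monomial, if_neg (Ne.symm h)]
      simp
  · intro n g
    obtain ⟨p, rfl⟩ := mk_surjective R g
    exact ⟨⟨(p : R[X]).coeff n, (mem_reesAlgebra_iff _ _).1 p.2 n⟩, rfl⟩
  · intro g
    obtain ⟨p, rfl⟩ := mk_surjective R g
    refine ⟨(p : R[X]).natDegree + 1, fun M hM => ?_⟩
    simp only [piG_mk]
    rw [← map_sum]
    congr 1
    apply Subtype.ext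
    rw [AddSubmonoidClass.coe_finset_sum]
    simp only [coe_prA]
    exact as_sum_range' _ _ (by omega)

end Construct

theorem exists_gr (R : Type u) [CommRing R] [IsLocalRing R] :
    ∃ (G : Type u) (_ : CommRing G) (_ : Algebra (ResidueField R) G), Nonempty (GrData R G) :=
  exists_gr' R

theorem gr_finrank (R : Type u) [CommRing R] [IsLocalRing R] [IsNoetherianRing R] (G : Type u) [CommRing G]
    [Algebra (ResidueField R) G] (D : GrData R G) (n : ℕ) :
    Module.Finite (ResidueField R) (LinearMap.range (D.pi n)) ∧
    Module.finrank (ResidueField R) (LinearMap.range (D.pi n)) =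
      (Module.length R (↥(maximalIdeal R ^ n) ⧸
        Submodule.comap (maximalIdeal R ^ n).subtype (maximalIdeal R ^ (n+1)))).toNat := by
  letI : Module R G := Module.compHom G (residue R)
  haveI : IsScalarTower R (ResidueField R) G := ⟨fun r c g => by
    show (r • c) • g = residue R r • c • g
    rw [← mul_smul]
    congr 1⟩
  have hW : ∀ a : ↥(maximalIdeal R ^ n), D.sym n a ∈ LinearMap.range (D.pi n) := by
    intro a
    exact ⟨D.sym n a, by rw [D.pi_sym, if_pos rfl]⟩
  let φ : ↥(maximalIdeal R ^ n) →ₗ[R] LinearMap.range (D.pi n) :=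
    { toFun := fun a => ⟨D.sym n a, hW a⟩
      map_add' := fun a b => Subtype.ext (D.sym_add n a b)
      map_smul' := fun r a => Subtype.ext (D.sym_smul n r a) }
  have hsurj : Function.Surjective φ := by
    rintro ⟨_, g, rfl⟩
    obtain ⟨a, ha⟩ := D.pi_mem n g
    exact ⟨a, Subtype.ext ha.symm⟩
  have hker : LinearMap.ker φ = Submodule.comap (maximalIdeal R ^ n).subtype (maximalIdeal R ^ (n+1)) := by
    ext a
    rw [LinearMap.mem_ker, Submodule.mem_comap]
    constructor
    · intro h
      exact (D.sym_eq_zero n a).1 (congrArg Subtype.val h)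
    · intro h
      exact Subtype.ext ((D.sym_eq_zero n a).2 h)
  haveI hfinR : Module.Finite R (LinearMap.range (D.pi n)) := Module.Finite.of_surjective φ hsurj
  haveI hfin : Module.Finite (ResidueField R) (LinearMap.range (D.pi n)) :=
    Module.Finite.of_restrictScalars_finite R _ _
  refine ⟨hfin, ?_⟩
  have e : (↥(maximalIdeal R ^ n) ⧸
        Submodule.comap (maximalIdeal R ^ n).subtype (maximalIdeal R ^ (n+1))) ≃ₗ[R]
      LinearMap.range (D.pi n) := by
    rw [← hker]
    exact φ.quotKerEquivOfSurjective hsurj
  rw [e.length_eq]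
  have h1 : Module.length R (LinearMap.range (D.pi n)) =
      Module.length (ResidueField R) (LinearMap.range (D.pi n)) :=
    Module.length_eq_of_surjective (R := ResidueField R) residue_surjective
  rw [h1, Module.length_eq_finrank]
  simp

end Pool.Agent.N38.LU.N763
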