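import Pool.Agent.N38.LU.Stm
import Pool.Agent.N38.LU.Stm3

/-!
The total complex of a minimal resolution of the residue field, as a based module.
-/

universe u
set_option autoImplicit false
open IsLocalRing TensorProduct

namespace Pool.Agent.N38.LU.N525

open Pool.Agent.N38.LU

section aux

variable {R : Type u} [CommRing R]

/-- membership in `I • ⊤` is coordinatewise -/
theorem mem_smul_top_iff {n : ℕ} (I : Ideal R) (x : Fin n → R) :
    x ∈ I • (⊤ : Submodule R (Fin n → R)) ↔ ∀ i, x i ∈ I := by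
  constructor
  · intro h
    refine Submodule.smul_induction_on h ?_ ?_
    · intro r hr y _ i
      exact I.mul_mem_right _ hr
    · intro y z hy hz i
      exact I.add_mem (hy i) (hz i)
  · intro h
    have h1 : x = ∑ i, x i • (Pi.single i (1 : R) : Fin n → R) := by
      funext j
      simp [Finset.sum_apply, Pi.single_apply]
    rw [h1]
    exact Submodule.sum_mem _ fun i _ => Submodule.smul_mem_smul (h i) Submodule.mem_top

variable (b : ℕ → ℕ)

theorem emb_apply (n : ℕ) (x : Fin (b n) → R) :
    emb R b n x = ∑ i : Fin (b n), Finsupp.single (⟨n, i⟩ : Σ n, Fin (b n)) (x i) := by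
  simp [emb, LinearMap.sum_apply]

theorem emb_same (n : ℕ) (x : Fin (b n) → R) (i : Fin (b n)) :
    emb R b n x ⟨n, i⟩ = x i := by
  classical
  rw [emb_apply, Finsupp.finsetSum_apply]
  rw [Finset.sum_eq_single i]
  · simp
  · intro j _ hj
    rw [Finsupp.single_apply, if_neg]
    intro h
    apply hj
    simpa using h
  · simp

theorem emb_ne (n : ℕ) (x : Fin (b n) → R) (γ : Σ n, Fin (b n)) (h : γ.1 ≠ n) :
    emb R b n x γ = 0 := by
  classical
  rw [emb_apply, Finsupp.finsetSum_apply]
  apply Finset.sum_eq_zero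
  intro j _
  rw [Finsupp.single_apply, if_neg]
  rintro rfl
  exact h rfl

theorem emb_deg {n : ℕ} {x : Fin (b n) → R} {γ : Σ n, Fin (b n)} (h : emb R b n x γ ≠ 0) :
    γ.1 = n := by
  by_contra h1
  exact h (emb_ne b n x γ h1)

theorem eq_emb {n : ℕ} (z : (Σ n, Fin (b n)) →₀ R) (h : ∀ γ, z γ ≠ 0 → γ.1 = n) :
    z = emb R b n (fun i => z ⟨n, i⟩) := by
  ext ⟨m, i⟩
  by_cases hm : m = n
  · subst hm
    rw [emb_same]
  · rw [emb_ne b n _ _ hm]
    by_contra h1
    exact hm (h _ h1)

theorem emb_inj {n : ℕ} {x y : Fin (b n) → R} (h : emb R b n x = emb R b n y) : x = y := by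
  funext i
  rw [← emb_same b n x i, ← emb_same b n y i, h]

theorem emb_mem {n : ℕ} (I : Ideal R) (x : Fin (b n) → R) (hx : ∀ i, x i ∈ I) (γ : Σ n, Fin (b n)) :
    emb R b n x γ ∈ I := by
  obtain ⟨m, i⟩ := γ
  by_cases hm : m = n
  · subst hm
    rw [emb_same]
    exact hx i
  · rw [emb_ne b n _ _ hm]
    exact I.zero_mem

variable (d : ∀ n : ℕ, (Fin (b (n+1)) → R) →ₗ[R] (Fin (b n) → R))

/-- values of the total differential on the basis -/
noncomputable def val : (Σ n, Fin (b n)) → ((Σ n, Fin (b n)) →₀ R)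
  | ⟨0, _⟩ => 0
  | ⟨n + 1, i⟩ => emb R b n (d n (Pi.single i 1))

/-- the total differential -/
noncomputable def D : ((Σ n, Fin (b n)) →₀ R) →ₗ[R] ((Σ n, Fin (b n)) →₀ R) :=
  Finsupp.linearCombination R (val b d)

theorem D_single (β : Σ n, Fin (b n)) (r : R) : D b d (Finsupp.single β r) = r • val b d β := by
  simp [D]

theorem D_emb (n : ℕ) (x : Fin (b (n+1)) → R) : D b d (emb R b (n+1) x) = emb R b n (d n x) := by
  rw [emb_apply, map_sum]
  have h1 : x = ∑ i, x i • (Pi.single i (1 : R) : Fin (b (n+1)) → R) := by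
    funext j
    simp [Finset.sum_apply, Pi.single_apply]
  conv_rhs => rw [h1]
  rw [map_sum, map_sum]
  refine Finset.sum_congr rfl fun i _ => ?_
  rw [D_single, map_smul, map_smul]
  rfl

theorem D_emb_zero (x : Fin (b 0) → R) : D b d (emb R b 0 x) = 0 := by
  rw [emb_apply, map_sum]
  refine Finset.sum_eq_zero fun i _ => ?_
  rw [D_single]
  exact smul_zero _

theorem D_D (hex : ∀ n : ℕ, LinearMap.ker (d n) = LinearMap.range (d (n+1)))
    (z : (Σ n, Fin (b n)) →₀ R) : D b d (D b d z) = 0 := by
  have h : (D b d) ∘ₗ (D b d) = 0 := by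
    apply Finsupp.lhom_ext
    intro β r
    rw [LinearMap.comp_apply, D_single, map_smul, LinearMap.zero_apply]
    obtain ⟨n, i⟩ := β
    cases n with
    | zero =>
      change r • D b d 0 = 0
      rw [map_zero, smul_zero]
    | succ n =>
      change r • D b d (emb R b n (d n (Pi.single i 1))) = 0
      cases n with
      | zero => rw [D_emb_zero, smul_zero]
      | succ m =>
        rw [D_emb]
        have : d m (d (m+1) (Pi.single i 1)) = 0 := by
          have h1 : d (m+1) (Pi.single i 1) ∈ LinearMap.ker (d m) := by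
            rw [hex m]
            exact LinearMap.mem_range_self _ _
          exact h1
        rw [this, map_zero, smul_zero]
  exact LinearMap.congr_fun h z

theorem val_deg (β γ : Σ n, Fin (b n)) (h : val b d β γ ≠ 0) : γ.1 + 1 = β.1 := by
  obtain ⟨n, i⟩ := β
  cases n with
  | zero => exact absurd rfl h
  | succ n =>
    have h1 : γ.1 = n := emb_deg b h
    rw [h1]

theorem val_mem (I : Ideal R) (hmin : ∀ n (x : Fin (b (n+1)) → R) i, d n x i ∈ I)
    (β γ : Σ n, Fin (b n)) : val b d β γ ∈ I := by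
  obtain ⟨n, i⟩ := β
  cases n with
  | zero => exact I.zero_mem
  | succ n => exact emb_mem b I _ (hmin n _) γ

theorem D_mem (I : Ideal R) (hmin : ∀ n (x : Fin (b (n+1)) → R) i, d n x i ∈ I)
    (z : (Σ n, Fin (b n)) →₀ R) (γ : Σ n, Fin (b n)) : D b d z γ ∈ I := by
  induction z using Finsupp.induction_linear with
  | zero => rw [map_zero]; exact I.zero_mem
  | add f g hf hg => rw [map_add, Finsupp.add_apply]; exact I.add_mem hf hg
  | single β r =>
    rw [D_single, Finsupp.smul_apply, smul_eq_mul]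
    exact I.mul_mem_left _ (val_mem b d I hmin β γ)

end aux

theorem exists_res (R : Type u) [CommRing R] [IsLocalRing R] [IsNoetherianRing R]
    (b : ℕ → ℕ) (d : ∀ n : ℕ, (Fin (b (n+1)) → R) →ₗ[R] (Fin (b n) → R))
    (ε : (Fin (b 0) → R) →ₗ[R] ResidueField R) (hε : Function.Surjective ε)
    (h0 : LinearMap.ker ε = LinearMap.range (d 0))
    (hex : ∀ n : ℕ, LinearMap.ker (d n) = LinearMap.range (d (n+1)))
    (hmin : ∀ n : ℕ, LinearMap.range (d n) ≤ maximalIdeal R • (⊤ : Submodule R (Fin (b n) → R))) :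
    ∃ X : Res R (Σ n, Fin (b n)), (∀ β, X.deg β = β.1) ∧
      (∀ n (x : Fin (b (n+1)) → R), X.d (emb R b (n+1) x) = emb R b n (d n x)) ∧
      (∀ w, Acyc R b d w → ∀ i j, 1 ≤ i → w < i + j → ExAt X i j) ∧
      (∀ n j, ExAt X (n+1) j → ∀ x : Fin (b (n+1)) → R,
        x ∈ (maximalIdeal R) ^ j • (⊤ : Submodule R (Fin (b (n+1)) → R)) →
        d n x ∈ (maximalIdeal R) ^ (j+2) • (⊤ : Submodule R (Fin (b n) → R)) →
        x ∈ (maximalIdeal R) ^ (j+1) • (⊤ : Submodule R (Fin (b (n+1)) → R)) ⊔
          Submodule.map (d (n+1))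
            ((maximalIdeal R) ^ (j-1) • (⊤ : Submodule R (Fin (b (n+1+1)) → R)))) := by
  have hmin' : ∀ n (x : Fin (b (n+1)) → R) i, d n x i ∈ maximalIdeal R := fun n x i =>
    (mem_smul_top_iff _ _).1 (hmin n (LinearMap.mem_range_self _ _)) i
  -- the kernel of the augmentation
  have hker : ∀ x : Fin (b 0) → R, ε x = 0 ↔ ∀ i, x i ∈ maximalIdeal R := by
    intro x
    constructor
    · intro hx
      have h1 : x ∈ LinearMap.ker ε := hx
      rw [h0] at h1
      obtain ⟨y, rfl⟩ := h1
      exact hmin' 0 y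
    · intro hx
      have h1 : x ∈ maximalIdeal R • (⊤ : Submodule R (Fin (b 0) → R)) :=
        (mem_smul_top_iff _ _).2 hx
      refine Submodule.smul_induction_on h1 ?_ ?_
      · intro r hr y _
        rw [map_smul]
        have h2 : residue R r = 0 := (residue_eq_zero_iff r).2 hr
        rw [Algebra.smul_def]
        have h3 : algebraMap R (ResidueField R) r = residue R r := rfl
        rw [h3, h2, zero_mul]
      · intro y z hy hz
        rw [map_add, hy, hz, add_zero]
  have hne : ∀ i : Fin (b 0), ε (Pi.single i 1) ≠ 0 := by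
    intro i h
    have h1 := (hker _).1 h i
    rw [Pi.single_eq_same] at h1
    exact (Ideal.ne_top_iff_one _).1 (maximalIdeal.isMaximal R).ne_top h1
  have huniq : ∀ i j : Fin (b 0), i = j := by
    intro i j
    by_contra hij
    obtain ⟨r, hr⟩ := residue_surjective (ε (Pi.single j 1) / ε (Pi.single i 1))
    have h1 : ε (r • Pi.single i 1 - Pi.single j 1) = 0 := by
      rw [map_sub, map_smul, Algebra.smul_def]
      have h3 : algebraMap R (ResidueField R) r = residue R r := rfl
      rw [h3, hr, div_mul_cancel₀ _ (hne i), sub_self]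
    have h2 := (hker _).1 h1 j
    have h3 : (r • Pi.single i 1 - Pi.single j 1 : Fin (b 0) → R) j = -1 := by
      simp [Ne.symm hij]
    rw [h3] at h2
    have h4 : (1 : R) ∈ maximalIdeal R := by
      have := (maximalIdeal R).neg_mem h2
      rwa [neg_neg] at this
    exact (Ideal.ne_top_iff_one _).1 (maximalIdeal.isMaximal R).ne_top h4
  have hpos : Nonempty (Fin (b 0)) := by
    by_contra h
    rw [not_nonempty_iff] at h
    obtain ⟨x, hx⟩ := hε 1
    have : x = 0 := Subsingleton.elim _ _
    rw [this, map_zero] at hx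
    exact zero_ne_one hx
  obtain ⟨i0⟩ := hpos
  let X : Res R (Σ n, Fin (b n)) :=
    { deg := Sigma.fst
      one := ⟨0, i0⟩
      d := D b d
      deg_one := rfl
      uniq := by
        rintro ⟨n, i⟩ (h : n = 0)
        subst h
        rw [huniq i i0]
      dd := D_D b d hex
      d_deg := by
        intro β γ h
        rw [D_single, one_smul] at h
        exact val_deg b d β γ h
      d_min := D_mem b d _ hmin'
      ex := by
        intro n z hz hdz hone
        cases n with
        | zero =>
          have h1 := eq_emb b z hz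
          have h2 : ε (fun i => z ⟨0, i⟩) = 0 := by
            rw [hker]
            intro i
            rw [huniq i i0]
            exact hone
          have h3 : (fun i => z ⟨0, i⟩) ∈ LinearMap.ker ε := h2
          rw [h0] at h3
          obtain ⟨y, hy⟩ := h3
          refine ⟨emb R b 1 y, fun γ h => emb_deg b h, ?_⟩
          rw [D_emb, hy, ← h1]
        | succ n =>
          have h1 := eq_emb b z hz
          rw [h1, D_emb] at hdz
          have h2 : d n (fun i => z ⟨n+1, i⟩) = 0 := by
            apply emb_inj b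
            rw [hdz, map_zero]
          have h3 : (fun i => z ⟨n+1, i⟩) ∈ LinearMap.ker (d n) := h2
          rw [hex n] at h3
          obtain ⟨y, hy⟩ := h3
          refine ⟨emb R b (n+2) y, fun γ h => emb_deg b h, ?_⟩
          rw [D_emb, hy, ← h1] }
  refine ⟨X, fun β => rfl, fun n x => D_emb b d n x, ?_, ?_⟩
  · intro w hw i j hi hij z hz hzj hdz
    obtain ⟨n, rfl⟩ : ∃ n, i = n + 1 := ⟨i - 1, by omega⟩
    have h1 := eq_emb b z hz
    have h2 : (fun i => z ⟨n+1, i⟩) ∈ (maximalIdeal R) ^ (j+1) • (⊤ : Submodule R (Fin (b (n+1)) → R)) ⊔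
          Submodule.map (d (n+1))
            ((maximalIdeal R) ^ (j-1) • (⊤ : Submodule R (Fin (b (n+1+1)) → R))) := by
      refine hw n j (by omega) _ ((mem_smul_top_iff _ _).2 fun i => hzj _)
        ((mem_smul_top_iff _ _).2 fun i => ?_)
      have h3 := hdz ⟨n, i⟩
      have h4 : X.d z = emb R b n (d n (fun i => z ⟨n+1, i⟩)) := by
        conv_lhs => rw [h1]
        exact D_emb b d n _
      rw [h4, emb_same] at h3
      exact h3
    obtain ⟨x1, hx1, x2, hx2, h3⟩ := Submodule.mem_sup.1 h2
    obtain ⟨y, hy, rfl⟩ := hx2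
    refine ⟨emb R b (n+1) x1, emb R b (n+2) y, ?_, fun γ h => emb_deg b h, fun γ h => emb_deg b h,
      fun γ => emb_mem b _ _ ((mem_smul_top_iff _ _).1 hx1) γ,
      fun γ => emb_mem b _ _ ((mem_smul_top_iff _ _).1 hy) γ⟩
    have h5 : X.d (emb R b (n+2) y) = emb R b (n+1) (d (n+1) y) := D_emb b d (n+1) y
    rw [h5, ← map_add, h3, ← h1]
  · intro n j hE x hx hdx
    obtain ⟨z1, z2, h1, h2, h3, h4, h5⟩ := hE (emb R b (n+1) x) (fun γ h => emb_deg b h)
      (fun γ => emb_mem b _ _ ((mem_smul_top_iff _ _).1 hx) γ) (by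
        intro γ
        have h6 : X.d (emb R b (n+1) x) = emb R b n (d n x) := D_emb b d n x
        rw [h6]
        exact emb_mem b _ _ ((mem_smul_top_iff _ _).1 hdx) γ)
    have e1 := eq_emb b z1 h2
    have e2 := eq_emb b z2 h3
    have h7 : X.d z2 = emb R b (n+1) (d (n+1) (fun i => z2 ⟨n+2, i⟩)) := by
      conv_lhs => rw [e2]
      exact D_emb b d (n+1) _
    have h8 : x = (fun i => z1 ⟨n+1, i⟩) + d (n+1) (fun i => z2 ⟨n+2, i⟩) := by
      apply emb_inj b
      rw [h1, map_add, ← e1, h7]
    rw [h8]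
    refine Submodule.add_mem_sup ((mem_smul_top_iff _ _).2 fun i => h4 _) ?_
    exact Submodule.mem_map_of_mem ((mem_smul_top_iff _ _).2 fun i => h5 _)

end Pool.Agent.N38.LU.N525
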