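import Mathlib

/-!
# Contracting homotopy of an acyclic complement over a field
-/

universe u
set_option autoImplicit false
open IsLocalRing TensorProduct

namespace Pool.Agent.N38.LU.N46

theorem exists_homotopy {k V : Type*} [Field k] [AddCommGroup V] [Module k V] (d J p : V →ₗ[k] V)
    (hd : ∀ v, d (d v) = 0) (hJ : ∀ v, J (J v) = v) (hJ2 : (2 : k) = 0 → ∀ v, J v = v)
    (hJd : ∀ v, J (d v) = - d (J v)) (hp : ∀ v, p (p v) = p v) (hpd : ∀ v, p (d v) = d (p v))
    (hpJ : ∀ v, p (J v) = J (p v)) (hex : ∀ v, d v = 0 → p v = 0 → ∃ w, d w = v) :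
    ∃ S : V →ₗ[k] V, (∀ v, d (S v) + S (d v) = v - p v) ∧ (∀ v, S (p v) = 0) ∧
      (∀ v, J (S v) = - S (J v)) := by
  -- a linear right inverse of `d` on its range
  obtain ⟨g, hg⟩ := LinearMap.exists_rightInverse_of_surjective d.rangeRestrict
    (LinearMap.range_eq_top.2 d.surjective_rangeRestrict)
  obtain ⟨s1, hs1⟩ := LinearMap.exists_extend g
  have h1 : ∀ w, d (s1 (d w)) = d w := by
    intro w
    have e1 : s1 (d w) = g ⟨d w, LinearMap.mem_range_self d w⟩ := by
      have := LinearMap.congr_fun hs1 ⟨d w, LinearMap.mem_range_self d w⟩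
      simpa using this
    have e2 := LinearMap.congr_fun hg ⟨d w, LinearMap.mem_range_self d w⟩
    have e3 := congrArg Subtype.val e2
    rw [e1]
    simpa using e3
  set q : V →ₗ[k] V := LinearMap.id - p with hq
  have q_apply : ∀ v, q v = v - p v := fun v => by simp [hq]
  have qd : ∀ v, q (d v) = d (q v) := fun v => by rw [q_apply, q_apply, map_sub, hpd]
  have pq : ∀ v, p (q v) = 0 := fun v => by rw [q_apply, map_sub, hp, sub_self]
  have qp : ∀ v, q (p v) = 0 := fun v => by rw [q_apply, hp, sub_self]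
  have qJ : ∀ v, q (J v) = J (q v) := fun v => by rw [q_apply, q_apply, map_sub, hpJ]
  set s0 : V →ₗ[k] V := q ∘ₗ s1 with hs0
  have h2 : ∀ z, d z = 0 → p z = 0 → d (s0 z) = z := by
    intro z hz1 hz2
    obtain ⟨w, hw⟩ := hex z hz1 hz2
    have : d (s0 z) = q (d (s1 z)) := by rw [qd]; rfl
    rw [this, ← hw, h1, hw, q_apply, hz2, sub_zero]
  have ps0 : ∀ z, p (s0 z) = 0 := fun z => pq _
  set S0 : V →ₗ[k] V := s0 ∘ₗ (q - s0 ∘ₗ d ∘ₗ q) with hS0
  have S0_apply : ∀ v, S0 v = s0 (q v - s0 (d (q v))) := fun v => by simp [hS0]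
  have hZ : ∀ v, d (d (q v)) = 0 ∧ p (d (q v)) = 0 := fun v => ⟨hd _, by rw [hpd, pq, map_zero]⟩
  have hu : ∀ v, d (S0 v) = q v - s0 (d (q v)) := by
    intro v
    rw [S0_apply]
    refine h2 _ ?_ ?_
    · rw [map_sub, h2 _ (hZ v).1 (hZ v).2, sub_self]
    · rw [map_sub, pq, ps0, sub_self]
  have hS0d : ∀ v, S0 (d v) = s0 (d (q v)) := by
    intro v
    rw [S0_apply, qd, hd, map_zero, sub_zero]
  have hmain : ∀ v, d (S0 v) + S0 (d v) = q v := by
    intro v
    rw [hu, hS0d, sub_add_cancel]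
  have hS0p : ∀ v, S0 (p v) = 0 := by
    intro v
    rw [S0_apply, qp]
    simp
  by_cases h2k : (2 : k) = 0
  · refine ⟨S0, fun v => by rw [hmain, q_apply], hS0p, fun v => ?_⟩
    rw [hJ2 h2k, hJ2 h2k, eq_neg_iff_add_eq_zero, ← two_smul k, h2k, zero_smul]
  · refine ⟨(2 : k)⁻¹ • (S0 - J ∘ₗ S0 ∘ₗ J), fun v => ?_, fun v => ?_, fun v => ?_⟩
    · have e1 : d (J (S0 (J v))) + J (S0 (J (d v))) = - q v := by
        have a1 : d (J (S0 (J v))) = - J (d (S0 (J v))) := by rw [hJd, neg_neg]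
        have a2 : J (S0 (J (d v))) = - J (S0 (d (J v))) := by rw [hJd, map_neg, map_neg]
        rw [a1, a2, ← neg_add, ← map_add, hmain, qJ, hJ]
      have e2 : d (((2 : k)⁻¹ • (S0 - J ∘ₗ S0 ∘ₗ J)) v) + ((2 : k)⁻¹ • (S0 - J ∘ₗ S0 ∘ₗ J)) (d v) =
          (2 : k)⁻¹ • ((d (S0 v) + S0 (d v)) - (d (J (S0 (J v))) + J (S0 (J (d v))))) := by
        simp only [LinearMap.smul_apply, LinearMap.sub_apply, LinearMap.comp_apply, map_smul, map_sub]
        rw [← smul_add]
        congr 1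
        abel
      rw [e2, hmain, e1, sub_neg_eq_add, ← two_smul k, smul_smul, inv_mul_cancel₀ h2k, one_smul,
        q_apply]
    · simp only [LinearMap.smul_apply, LinearMap.sub_apply, LinearMap.comp_apply]
      rw [hS0p, ← hpJ, hS0p]
      simp
    · simp only [LinearMap.smul_apply, LinearMap.sub_apply, LinearMap.comp_apply, map_smul, map_sub]
      rw [hJ, hJ, ← smul_neg]
      congr 1
      abel

end Pool.Agent.N38.LU.N46
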