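import Pool.Agent.N38.LU.Stm3
import Pool.Agent.N38.LU.Htpy
/-! The finite model `X` (image of the truncation idempotent) of `K = G ⊗ T`, with its
contraction: the structure `XD`. -/
universe u
set_option autoImplicit false
set_option linter.unusedSectionVars false
set_option linter.unusedSimpArgs false
open IsLocalRing TensorProduct

namespace Pool.Agent.N38.LU.N839
open Pool.Agent.N38.LU

theorem mem_Sw (w n i : ℕ) : (n, i) ∈ Sw w ↔ n + i ≤ w := by
  simp only [Sw, Finset.mem_filter, Finset.mem_product, Finset.mem_range]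
  omega

variable {k G T ι : Type*} [Field k] [CommRing G] [Algebra k G] [AddCommGroup T] [Module k T]
    [DecidableEq ι] [Fintype ι]

/-- induction over homogeneous pure tensors -/
theorem hom_ind (H : HT k T ι) (pi : ℕ → G →ₗ[k] G)
    (hpp : ∀ i j g, pi i (pi j g) = if i = j then pi j g else 0)
    (hps : ∀ g, ∃ N, ∀ M, N ≤ M → g = ∑ i ∈ Finset.range M, pi i g)
    (C : G ⊗[k] T → Prop) (h0 : C 0) (hadd : ∀ a b, C a → C b → C (a + b))
    (hh : ∀ n i g t, pi n g = g → H.P i t = t → C (g ⊗ₜ t)) (z : G ⊗[k] T) : C z := by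
  have hsum : ∀ (s : Finset ℕ) (f : ℕ → G ⊗[k] T), (∀ a ∈ s, C (f a)) → C (∑ a ∈ s, f a) := by
    intro s f hf
    exact Finset.sum_induction f C hadd h0 hf
  induction z with
  | zero => exact h0
  | add a b ha hb => exact hadd a b ha hb
  | tmul g t =>
    obtain ⟨N, hN⟩ := hps g
    obtain ⟨M, hM⟩ := H.P_sum t
    rw [hN N le_rfl, hM M le_rfl, sum_tmul]
    refine hsum _ _ fun n _ => ?_
    rw [tmul_sum]
    refine hsum _ _ fun i _ => ?_
    exact hh n i _ _ (by rw [hpp, if_pos rfl]) (by rw [H.P_P, if_pos rfl])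

theorem pw_hom (H : HT k T ι) (pi : ℕ → G →ₗ[k] G)
    (hpp : ∀ i j g, pi i (pi j g) = if i = j then pi j g else 0) (w n i : ℕ) (g : G) (t : T)
    (hg : pi n g = g) (ht : H.P i t = t) :
    pw pi H.P w (g ⊗ₜ t) = if n + i ≤ w then g ⊗ₜ t else 0 := by
  have h1 : ∀ s : ℕ × ℕ, TensorProduct.map (pi s.1) (H.P s.2) (g ⊗ₜ[k] t) =
      if s = (n, i) then g ⊗ₜ[k] t else 0 := by
    rintro ⟨a, b⟩
    rw [TensorProduct.map_tmul]
    have e1 : pi a g = if a = n then g else 0 := by
      conv_lhs => rw [← hg]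
      rw [hpp, hg]
    have e2 : H.P b t = if b = i then t else 0 := by
      conv_lhs => rw [← ht]
      rw [H.P_P, ht]
    simp only [e1, e2]
    by_cases ha : a = n
    · by_cases hb : b = i
      · simp [ha, hb]
      · simp [ha, hb]
    · simp [ha]
  unfold pw
  rw [LinearMap.sum_apply, Finset.sum_congr rfl fun s _ => h1 s, Finset.sum_ite_eq']
  simp only [mem_Sw]

theorem pw_pw (H : HT k T ι) (pi : ℕ → G →ₗ[k] G)
    (hpp : ∀ i j g, pi i (pi j g) = if i = j then pi j g else 0)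
    (hps : ∀ g, ∃ N, ∀ M, N ≤ M → g = ∑ i ∈ Finset.range M, pi i g) (w : ℕ) (z : G ⊗[k] T) :
    pw pi H.P w (pw pi H.P w z) = pw pi H.P w z := by
  refine hom_ind H pi hpp hps (fun z => pw pi H.P w (pw pi H.P w z) = pw pi H.P w z) (by simp)
    (fun a b ha hb => by simp only [map_add, ha, hb]) ?_ z
  intro n i g t hg ht
  simp only [pw_hom H pi hpp w n i g t hg ht]
  split_ifs with h
  · rw [pw_hom H pi hpp w n i g t hg ht, if_pos h]
  · simp

theorem pw_dK (H : HT k T ι) (x : ι → G) (pi : ℕ → G →ₗ[k] G)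
    (hpp : ∀ i j g, pi i (pi j g) = if i = j then pi j g else 0)
    (hps : ∀ g, ∃ N, ∀ M, N ≤ M → g = ∑ i ∈ Finset.range M, pi i g)
    (hpx : ∀ n j g, pi (n+1) (x j * g) = x j * pi n g) (w : ℕ) (z : G ⊗[k] T) :
    pw pi H.P w (dK H x z) = dK H x (pw pi H.P w z) := by
  refine hom_ind H pi hpp hps (fun z => pw pi H.P w (dK H x z) = dK H x (pw pi H.P w z)) (by simp)
    (fun a b ha hb => by simp only [map_add, ha, hb]) ?_ z
  intro n i g t hg ht
  simp only [pw_hom H pi hpp w n i g t hg ht]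
  cases i with
  | zero =>
    have h0 : dK H x (g ⊗ₜ[k] t) = 0 := by
      rw [dK_tmul, ← ht]
      simp [H.lam_P0]
    rw [h0]
    split_ifs <;> simp [h0]
  | succ i =>
    have h1 : pw pi H.P w (dK H x (g ⊗ₜ[k] t)) = if n + (i + 1) ≤ w then dK H x (g ⊗ₜ[k] t) else 0 := by
      rw [dK_tmul, map_sum]
      have h2 : ∀ j, pw pi H.P w ((x j * g) ⊗ₜ[k] H.lam j t) =
          if n + (i + 1) ≤ w then (x j * g) ⊗ₜ[k] H.lam j t else 0 := by
        intro j
        rw [pw_hom H pi hpp w (n+1) i (x j * g) (H.lam j t) (by rw [hpx, hg]) (by rw [H.P_lam, ht])]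
        have : n + 1 + i ≤ w ↔ n + (i + 1) ≤ w := by omega
        simp only [this]
      rw [Finset.sum_congr rfl fun j _ => h2 j]
      split_ifs <;> simp
    rw [h1]
    split_ifs <;> simp

theorem pw_JK (H : HT k T ι) (pi : ℕ → G →ₗ[k] G)
    (hpp : ∀ i j g, pi i (pi j g) = if i = j then pi j g else 0)
    (hps : ∀ g, ∃ N, ∀ M, N ≤ M → g = ∑ i ∈ Finset.range M, pi i g) (w : ℕ) (z : G ⊗[k] T) :
    pw pi H.P w (JK G H z) = JK G H (pw pi H.P w z) := by
  refine hom_ind H pi hpp hps (fun z => pw pi H.P w (JK G H z) = JK G H (pw pi H.P w z)) (by simp)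
    (fun a b ha hb => by simp only [map_add, ha, hb]) ?_ z
  intro n i g t hg ht
  simp only [pw_hom H pi hpp w n i g t hg ht]
  have h1 : H.P i (H.J t) = H.J t := by
    have e1 := H.J_P i t
    rw [ht] at e1
    rw [e1, map_smul, ht]
  rw [JK_tmul, pw_hom H pi hpp w n i g _ hg h1]
  split_ifs <;> simp

theorem pw_rK (H : HT k T ι) (pi : ℕ → G →ₗ[k] G)
    (hpp : ∀ i j g, pi i (pi j g) = if i = j then pi j g else 0)
    (hps : ∀ g, ∃ N, ∀ M, N ≤ M → g = ∑ i ∈ Finset.range M, pi i g) (w : ℕ) (j : ι)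
    (z : G ⊗[k] T) :
    pw pi H.P w (rK G H j (pw pi H.P w z)) = rK G H j (pw pi H.P w z) := by
  refine hom_ind H pi hpp hps
    (fun z => pw pi H.P w (rK G H j (pw pi H.P w z)) = rK G H j (pw pi H.P w z)) (by simp)
    (fun a b ha hb => by simp only [map_add, ha, hb]) ?_ z
  intro n i g t hg ht
  simp only [pw_hom H pi hpp w n i g t hg ht]
  split_ifs with h
  · cases i with
    | zero =>
      have h0 : rK G H j (g ⊗ₜ[k] t) = 0 := by
        rw [rK_tmul, ← ht, H.rho_P0, tmul_zero]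
      rw [h0, map_zero]
    | succ i =>
      rw [rK_tmul, pw_hom H pi hpp w n i g (H.rho j t) hg (by rw [H.P_rho, ht]), if_pos (by omega)]
  · simp

theorem P_rT_Del_zero (H : HT k T ι) (a i : ℕ) (hai : i < a) (t : T) (ht : H.P i t = t) :
    (H.P a).rTensor T (H.Del t) = 0 := by
  obtain ⟨N, hN⟩ := H.P_sum_lT ((H.P a).rTensor T (H.Del t))
  rw [hN N le_rfl]
  apply Finset.sum_eq_zero
  intro b _
  rw [← LinearMap.comp_apply, LinearMap.lTensor_comp_rTensor]
  have := H.P_Del a b i t (by omega)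
  rwa [ht] at this

theorem P_rT_Del_self (H : HT k T ι) (i : ℕ) (t : T) (ht : H.P i t = t) :
    (H.P i).rTensor T (H.Del t) = t ⊗ₜ H.one := by
  obtain ⟨N, hN⟩ := H.P_sum_lT ((H.P i).rTensor T (H.Del t))
  rw [hN (N+1) (Nat.le_succ N)]
  have h1 : ∀ a, (H.P a).lTensor T ((H.P i).rTensor T (H.Del t)) =
      TensorProduct.map (H.P i) (H.P a) (H.Del (H.P i t)) := by
    intro a
    rw [ht, ← LinearMap.comp_apply, LinearMap.lTensor_comp_rTensor]
  have h2 : ∀ a ∈ Finset.range (N+1), a ≠ 0 →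
      (H.P a).lTensor T ((H.P i).rTensor T (H.Del t)) = 0 := by
    intro a _ ha
    rw [h1, H.P_Del]; omega
  rw [Finset.sum_eq_single 0 h2 (by simp)]
  have h3 : ∀ z : T ⊗[k] T, (H.P 0).lTensor T ((H.P i).rTensor T z) =
      H.P i (TensorProduct.rid k T (H.eps.lTensor T z)) ⊗ₜ H.one := by
    intro z
    induction z with
    | zero => simp
    | add a b ha hb => simp only [map_add, ha, hb, add_tmul]
    | tmul s u => simp [H.P_zero, smul_tmul]
  rw [h3, H.cou_r, ht]

theorem Del_sub (H : HT k T ι) (l i : ℕ) (hl : l ≤ i) (t : T) (ht : H.P l t = t) :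
    H.Del t - t ⊗ₜ H.one = ∑ a ∈ Finset.range i, (H.P a).rTensor T (H.Del t - t ⊗ₜ H.one) := by
  have h0 : ∀ a, l ≤ a → (H.P a).rTensor T (H.Del t - t ⊗ₜ H.one) = 0 := by
    intro a ha
    rcases eq_or_lt_of_le ha with h | h
    · subst h
      rw [map_sub, P_rT_Del_self H l t ht, LinearMap.rTensor_tmul, ht, sub_self]
    · rw [map_sub, P_rT_Del_zero H a l h t ht, LinearMap.rTensor_tmul]
      have : H.P a t = 0 := by
        rw [← ht, H.P_P, if_neg (by omega)]
      rw [this, zero_tmul, sub_self]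
  obtain ⟨N, hN⟩ := H.P_sum_rT (H.Del t - t ⊗ₜ[k] H.one)
  conv_lhs => rw [hN (max N i) (le_max_left _ _)]
  symm
  apply Finset.sum_subset
  · intro a ha
    rw [Finset.mem_range] at ha ⊢
    exact lt_of_lt_of_le ha (le_max_right _ _)
  · intro a _ ha
    rw [Finset.mem_range, not_lt] at ha
    exact h0 a (le_trans hl ha)

theorem Del_le (H : HT k T ι) (i : ℕ) (t : T) (ht : H.P i t = t) :
    H.Del t = ∑ a ∈ Finset.range (i+1), (H.P a).rTensor T (H.Del t) := by
  obtain ⟨N, hN⟩ := H.P_sum_rT (H.Del t)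
  conv_lhs => rw [hN (max N (i+1)) (le_max_left _ _)]
  symm
  apply Finset.sum_subset
  · intro a ha
    rw [Finset.mem_range] at ha ⊢
    exact lt_of_lt_of_le ha (le_max_right _ _)
  · intro a _ ha
    rw [Finset.mem_range, not_lt] at ha
    exact P_rT_Del_zero H a i (by omega) t ht

/-- `1 ⊗ (P 0 + … + P (i-1))` -/
noncomputable def QK (G : Type*) [CommRing G] [Algebra k G] (H : HT k T ι) (i : ℕ) :
    G ⊗[k] T →ₗ[k] G ⊗[k] T := ∑ l ∈ Finset.range i, (H.P l).lTensor G

theorem QK_apply (H : HT k T ι) (i : ℕ) (z : G ⊗[k] T) :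
    QK G H i z = ∑ l ∈ Finset.range i, (H.P l).lTensor G z := by
  simp [QK]

theorem QK_tmul (H : HT k T ι) (i l : ℕ) (g : G) (t : T) (ht : H.P l t = t) :
    QK G H i (g ⊗ₜ t) = if l < i then g ⊗ₜ t else 0 := by
  have h1 : ∀ a, (H.P a).lTensor G (g ⊗ₜ[k] t) = if a = l then g ⊗ₜ[k] t else 0 := by
    intro a
    rw [LinearMap.lTensor_tmul]
    have e2 : H.P a t = if a = l then t else 0 := by
      conv_lhs => rw [← ht]
      rw [H.P_P, ht]
    rw [e2]
    split_ifs <;> simp
  rw [QK_apply, Finset.sum_congr rfl fun a _ => h1 a, Finset.sum_ite_eq']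
  simp only [Finset.mem_range]

theorem pw_QK (H : HT k T ι) (pi : ℕ → G →ₗ[k] G)
    (hpp : ∀ i j g, pi i (pi j g) = if i = j then pi j g else 0)
    (hps : ∀ g, ∃ N, ∀ M, N ≤ M → g = ∑ i ∈ Finset.range M, pi i g) (w l : ℕ) (z : G ⊗[k] T) :
    pw pi H.P w (QK G H l z) = QK G H l (pw pi H.P w z) := by
  refine hom_ind H pi hpp hps (fun z => pw pi H.P w (QK G H l z) = QK G H l (pw pi H.P w z))
    (by simp) (fun a b ha hb => by simp only [map_add, ha, hb]) ?_ z
  intro n i g t hg ht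
  simp only [pw_hom H pi hpp w n i g t hg ht, QK_tmul H l i g t ht]
  by_cases h1 : i < l
  · by_cases h2 : n + i ≤ w
    · simp [h1, h2, pw_hom H pi hpp w n i g t hg ht, QK_tmul H l i g t ht]
    · simp [h1, h2, pw_hom H pi hpp w n i g t hg ht, QK_tmul H l i g t ht]
  · by_cases h2 : n + i ≤ w
    · simp [h1, h2, pw_hom H pi hpp w n i g t hg ht, QK_tmul H l i g t ht]
    · simp [h1, h2, pw_hom H pi hpp w n i g t hg ht, QK_tmul H l i g t ht]

theorem QK_pw (H : HT k T ι) (pi : ℕ → G →ₗ[k] G)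
    (hpp : ∀ i j g, pi i (pi j g) = if i = j then pi j g else 0)
    (hps : ∀ g, ∃ N, ∀ M, N ≤ M → g = ∑ i ∈ Finset.range M, pi i g) (w : ℕ) (z : G ⊗[k] T) :
    QK G H (w+1) (pw pi H.P w z) = pw pi H.P w z := by
  refine hom_ind H pi hpp hps (fun z => QK G H (w+1) (pw pi H.P w z) = pw pi H.P w z)
    (by simp) (fun a b ha hb => by simp only [map_add, ha, hb]) ?_ z
  intro n i g t hg ht
  simp only [pw_hom H pi hpp w n i g t hg ht]
  split_ifs with h
  · rw [QK_tmul H (w+1) i g t ht, if_pos (by omega)]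
  · simp

theorem DK_tmul (H : HT k T ι) (g : G) (t : T) :
    DK G H (g ⊗ₜ t) = (TensorProduct.assoc k G T T).symm (g ⊗ₜ H.Del t) := by
  simp [DK]

theorem pw_DK (H : HT k T ι) (pi : ℕ → G →ₗ[k] G)
    (hpp : ∀ i j g, pi i (pi j g) = if i = j then pi j g else 0)
    (hps : ∀ g, ∃ N, ∀ M, N ≤ M → g = ∑ i ∈ Finset.range M, pi i g) (w : ℕ) (z : G ⊗[k] T) :
    (pw pi H.P w).rTensor T (DK G H (pw pi H.P w z)) = DK G H (pw pi H.P w z) := by
  refine hom_ind H pi hpp hps
    (fun z => (pw pi H.P w).rTensor T (DK G H (pw pi H.P w z)) = DK G H (pw pi H.P w z))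
    (by simp) (fun a b ha hb => by simp only [map_add, ha, hb]) ?_ z
  intro n i g t hg ht
  simp only [pw_hom H pi hpp w n i g t hg ht]
  split_ifs with h
  · have key : ∀ a, a ≤ i → ∀ u : T ⊗[k] T, (pw pi H.P w).rTensor T
        ((TensorProduct.assoc k G T T).symm (g ⊗ₜ ((H.P a).rTensor T u))) =
        (TensorProduct.assoc k G T T).symm (g ⊗ₜ ((H.P a).rTensor T u)) := by
      intro a ha u
      induction u with
      | zero => simp
      | add b c hb hc => simp only [map_add, tmul_add, hb, hc]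
      | tmul r s =>
        rw [LinearMap.rTensor_tmul, TensorProduct.assoc_symm_tmul, LinearMap.rTensor_tmul,
          pw_hom H pi hpp w n a g (H.P a r) hg (by rw [H.P_P, if_pos rfl]), if_pos (by omega)]
    rw [DK_tmul, Del_le H i t ht, tmul_sum, map_sum, map_sum]
    refine Finset.sum_congr rfl fun a ha => ?_
    exact key a (by rw [Finset.mem_range] at ha; omega) _
  · simp

theorem QK_DK (H : HT k T ι) (l i : ℕ) (hl : l ≤ i) (z : G ⊗[k] T) :
    DK G H ((H.P l).lTensor G z) - ((H.P l).lTensor G z) ⊗ₜ[k] H.one =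
      (QK G H i).rTensor T
        (DK G H ((H.P l).lTensor G z) - ((H.P l).lTensor G z) ⊗ₜ[k] H.one) := by
  induction z with
  | zero => simp
  | add a b ha hb =>
    have e : DK G H ((H.P l).lTensor G (a + b)) - ((H.P l).lTensor G (a + b)) ⊗ₜ[k] H.one =
        (DK G H ((H.P l).lTensor G a) - ((H.P l).lTensor G a) ⊗ₜ[k] H.one) +
        (DK G H ((H.P l).lTensor G b) - ((H.P l).lTensor G b) ⊗ₜ[k] H.one) := by
      simp only [map_add, add_tmul]; abel
    rw [e, map_add, ← ha, ← hb]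
  | tmul g t =>
    rw [LinearMap.lTensor_tmul, DK_tmul]
    set s := H.P l t with hs
    have hPs : H.P l s = s := by rw [hs, H.P_P, if_pos rfl]
    have e1 : (TensorProduct.assoc k G T T).symm (g ⊗ₜ[k] H.Del s) - (g ⊗ₜ[k] s) ⊗ₜ[k] H.one =
        (TensorProduct.assoc k G T T).symm (g ⊗ₜ[k] (H.Del s - s ⊗ₜ H.one)) := by
      rw [tmul_sub, map_sub, TensorProduct.assoc_symm_tmul]
    have e2 : ∀ u : T ⊗[k] T, (QK G H i).rTensor T ((TensorProduct.assoc k G T T).symm (g ⊗ₜ[k] u)) =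
        (TensorProduct.assoc k G T T).symm
          (g ⊗ₜ[k] (∑ a ∈ Finset.range i, (H.P a).rTensor T u)) := by
      intro u
      induction u with
      | zero => simp
      | add b c hb hc => simp only [map_add, tmul_add, hb, hc, Finset.sum_add_distrib]
      | tmul r s =>
        rw [TensorProduct.assoc_symm_tmul, LinearMap.rTensor_tmul, QK_apply]
        simp only [LinearMap.lTensor_tmul, LinearMap.rTensor_tmul, tmul_sum, sum_tmul, map_sum,
          TensorProduct.assoc_symm_tmul]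
    rw [e1, e2, ← Del_sub H l i hl s hPs]

theorem QK_DK'' (H : HT k T ι) (i : ℕ) (z : G ⊗[k] T) (m : ℕ) (hm : m ≤ i + 1) :
    DK G H (QK G H m z) - (QK G H m z) ⊗ₜ[k] H.one =
      (QK G H i).rTensor T (DK G H (QK G H m z) - (QK G H m z) ⊗ₜ[k] H.one) := by
  induction m with
  | zero =>
    have : QK G H 0 z = 0 := by simp [QK_apply]
    rw [this]; simp
  | succ m ih =>
    have e0 : QK G H (m+1) z = QK G H m z + (H.P m).lTensor G z := by
      rw [QK_apply, QK_apply, Finset.sum_range_succ]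
    have e : DK G H (QK G H (m+1) z) - (QK G H (m+1) z) ⊗ₜ[k] H.one =
        (DK G H (QK G H m z) - (QK G H m z) ⊗ₜ[k] H.one) +
        (DK G H ((H.P m).lTensor G z) - ((H.P m).lTensor G z) ⊗ₜ[k] H.one) := by
      rw [e0, map_add, add_tmul]; abel
    rw [e, map_add, ← ih (by omega), ← QK_DK H m i (by omega) z]

theorem QK_DK' (H : HT k T ι) (i : ℕ) (z : G ⊗[k] T) :
    DK G H (QK G H (i+1) z) - (QK G H (i+1) z) ⊗ₜ[k] H.one =
      (QK G H i).rTensor T (DK G H (QK G H (i+1) z) - (QK G H (i+1) z) ⊗ₜ[k] H.one) :=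
  QK_DK'' H i z (i+1) le_rfl

theorem exists_XD_aux {k G T ι X : Type*} [Field k] [CommRing G] [Algebra k G] [AddCommGroup T]
    [Module k T] [DecidableEq ι] [Fintype ι] [AddCommGroup X] [Module k X]
    (H : HT k T ι) (x : ι → G) (pi : ℕ → G →ₗ[k] G)
    (hpp : ∀ i j g, pi i (pi j g) = if i = j then pi j g else 0)
    (hps : ∀ g, ∃ N, ∀ M, N ≤ M → g = ∑ i ∈ Finset.range M, pi i g)
    (hpx : ∀ n j g, pi (n+1) (x j * g) = x j * pi n g)
    (hdd : ∀ z, dK H x (dK H x z) = 0) (w : ℕ)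
    (hex : ∀ v, dK H x v = 0 → pw pi H.P w v = 0 → ∃ u, dK H x u = v)
    (inc : X →ₗ[k] G ⊗[k] T) (pr : G ⊗[k] T →ₗ[k] X) (hpr : ∀ z, pr (inc z) = z)
    (hip : ∀ v, inc (pr v) = pw pi H.P w v) :
    ∃ D : XD H x X, D.inc = inc := by
  set p := pw pi H.P w with hp
  have hpJ := pw_JK H pi hpp hps w
  have hpd := pw_dK H x pi hpp hps hpx w
  have hpp' := pw_pw H pi hpp hps w
  rw [← hp] at hpJ hpd hpp'
  obtain ⟨S, hS1, hS2, hS3⟩ := Pool.Agent.N38.LU.N46.exists_homotopy (dK H x) (JK G H) p hdd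
    (JK_JK H) (by
      intro h2 v
      have hJ : ∀ t, H.J t = t := by
        intro t
        obtain ⟨N, hN⟩ := H.P_sum t
        conv_lhs => rw [hN N le_rfl]
        conv_rhs => rw [hN N le_rfl]
        rw [map_sum]
        refine Finset.sum_congr rfl fun i _ => ?_
        rw [H.J_P]
        have : (-1 : k) = 1 := by
          rw [neg_eq_iff_add_eq_zero, one_add_one_eq_two, h2]
        rw [this, one_pow, one_smul]
      induction v with
      | zero => simp
      | add a b ha hb => rw [map_add, ha, hb]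
      | tmul g t => rw [JK_tmul, hJ]) (JK_dK H x) hpp' hpd hpJ hex
  have hfi : ∀ z, p (inc z) = inc z := fun z => by rw [← hip, hpr]
  have hinj : Function.Injective inc := Function.LeftInverse.injective hpr
  have hipc : inc ∘ₗ pr = p := LinearMap.ext fun v => hip v
  have hpic : pr ∘ₗ inc = LinearMap.id := by ext1 z; exact hpr z
  have hinjT : Function.Injective (inc.rTensor T) := by
    apply Function.LeftInverse.injective (g := pr.rTensor T)
    intro z
    rw [← LinearMap.comp_apply, ← LinearMap.rTensor_comp, hpic]; simp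
  have hincDX : ∀ z, inc.rTensor T ((pr.rTensor T ∘ₗ DK G H ∘ₗ inc) z) = DK G H (inc z) := by
    intro z
    simp only [LinearMap.comp_apply]
    rw [← LinearMap.rTensor_comp_apply, hipc]
    obtain ⟨y, hy⟩ : ∃ y, p y = inc z := ⟨inc z, hfi z⟩
    rw [← hy]
    exact pw_DK H pi hpp hps w y
  have hincQ : ∀ i z, inc ((pr ∘ₗ QK G H i ∘ₗ inc) z) = QK G H i (inc z) := by
    intro i z
    simp only [LinearMap.comp_apply]
    rw [hip]
    have := pw_QK H pi hpp hps w i (inc z)
    rw [← hp] at this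
    rw [this, hfi]
  refine ⟨{ inc := inc
            pr := pr
            Sg := S
            dX := pr ∘ₗ dK H x ∘ₗ inc
            JX := pr ∘ₗ JK G H ∘ₗ inc
            rX := fun j => pr ∘ₗ rK G H j ∘ₗ inc
            DX := pr.rTensor T ∘ₗ DK G H ∘ₗ inc
            Q := fun i => pr ∘ₗ QK G H i ∘ₗ inc
            N := w + 1
            pr_inc := hpr
            inc_dX := ?_
            pr_dK := ?_
            inc_JX := ?_
            pr_JK := ?_
            inc_rX := ?_
            inc_DX := hincDX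
            htpy := ?_
            Sg_inc := ?_
            JK_Sg := hS3
            Q_zero := ?_
            Q_N := ?_
            Q_DX := ?_ }, rfl⟩
  · intro z
    simp only [LinearMap.comp_apply]
    rw [hip, hpd, hfi]
  · intro z
    apply hinj
    simp only [LinearMap.comp_apply, hip, hpd, hpp']
  · intro z
    simp only [LinearMap.comp_apply]
    rw [hip, hpJ, hfi]
  · intro z
    apply hinj
    simp only [LinearMap.comp_apply, hip, hpJ, hpp']
  · intro j z
    simp only [LinearMap.comp_apply]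
    rw [hip]
    obtain ⟨y, hy⟩ : ∃ y, p y = inc z := ⟨inc z, hfi z⟩
    rw [← hy]
    exact pw_rK H pi hpp hps w j y
  · intro z
    rw [hS1, hip]
  · intro z
    rw [← hfi z, hS2]
  · ext1 z
    apply hinj
    rw [hincQ, QK_apply]; simp
  · ext1 z
    apply hinj
    rw [hincQ]
    obtain ⟨y, hy⟩ : ∃ y, p y = inc z := ⟨inc z, hfi z⟩
    rw [LinearMap.id_apply, ← hy]
    exact QK_pw H pi hpp hps w y
  · intro i z
    apply hinjT
    have e1 : ∀ z', inc.rTensor T ((pr ∘ₗ QK G H i ∘ₗ inc).rTensor T z') =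
        (QK G H i).rTensor T (inc.rTensor T z') := by
      intro z'
      rw [← LinearMap.rTensor_comp_apply, ← LinearMap.rTensor_comp_apply]
      congr 2
      ext1 y
      exact hincQ i y
    rw [e1, map_sub, hincDX, LinearMap.rTensor_tmul, hincQ]
    exact QK_DK' H i (inc z)

theorem exists_XD {k G T ι : Type*} [Field k] [CommRing G] [Algebra k G] [AddCommGroup T] [Module k T]
    [DecidableEq ι] [Fintype ι] (H : HT k T ι) (x : ι → G) (pi : ℕ → G →ₗ[k] G)
    (hpp : ∀ i j g, pi i (pi j g) = if i = j then pi j g else 0)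
    (hps : ∀ g, ∃ N, ∀ M, N ≤ M → g = ∑ i ∈ Finset.range M, pi i g)
    (hpx : ∀ n j g, pi (n+1) (x j * g) = x j * pi n g) (hpx0 : ∀ j g, pi 0 (x j * g) = 0)
    (hdd : ∀ z, dK H x (dK H x z) = 0) (w : ℕ)
    (hex : ∀ v, dK H x v = 0 → pw pi H.P w v = 0 → ∃ u, dK H x u = v) :
    ∃ D : XD H x (LinearMap.range (pw pi H.P w)), ∀ z : LinearMap.range (pw pi H.P w),
      (D.JX z : G ⊗[k] T) = H.J.lTensor G (z : G ⊗[k] T) := by
  obtain ⟨D, hD⟩ := exists_XD_aux (X := ↥(LinearMap.range (pw pi H.P w)))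
    H x pi hpp hps hpx hdd w hex
    (LinearMap.range (pw pi H.P w)).subtype (pw pi H.P w).rangeRestrict
    (fun z => by
      obtain ⟨y, hy⟩ := z.2
      apply Subtype.ext
      show pw pi H.P w (z : G ⊗[k] T) = z
      rw [← hy]
      exact pw_pw H pi hpp hps w y) (fun v => rfl)
  refine ⟨D, fun z => ?_⟩
  have := D.inc_JX z
  rw [hD] at this
  exact this

end Pool.Agent.N38.LU.N839
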