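import Pool.Agent.N38.LU.B7
import Pool.Agent.N38.LU.Trace
import Pool.Agent.N38.LU.Res2
import Pool.Agent.N38.LU.Gr
import Pool.Agent.N38.LU.Fini
import Pool.Agent.N38.LU.Euler
import Pool.Agent.N38.LU.Xd
/-! Preparations for the final assembly: linear independence of the degree one generators, ranks of the
graded pieces, reindexing of the Euler characteristic. -/
universe u
set_option autoImplicit false
set_option linter.unusedSectionVars false
set_option linter.unusedVariables false
open IsLocalRing TensorProduct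

namespace Pool.Agent.N38.LU

variable {R : Type u} {B : Type} [CommRing R] [IsLocalRing R] {X : Res R B}


theorem sum_tmul_eq_zero_of_li {k G V ι : Type*} [Field k] [AddCommGroup G] [Module k G] [AddCommGroup V]
    [Module k V] [Fintype ι] (x : ι → G) (hx : LinearIndependent k x) (v : ι → V)
    (h : ∑ j, x j ⊗ₜ[k] v j = 0) (j : ι) : v j = 0 := by
  classical
  obtain ⟨f, hf⟩ := LinearMap.exists_extend ((Finsupp.lapply j : (ι →₀ k) →ₗ[k] k) ∘ₗ hx.repr)
  have hfx : ∀ i, f (x i) = if i = j then 1 else 0 := by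
    intro i
    have hi : x i ∈ Submodule.span k (Set.range x) := Submodule.subset_span ⟨i, rfl⟩
    have h1 := LinearMap.congr_fun hf ⟨x i, hi⟩
    have h2 : hx.repr ⟨x i, hi⟩ = Finsupp.single i 1 := hx.repr_eq_single i _ rfl
    simp only [LinearMap.comp_apply, Submodule.subtype_apply, h2,
      Finsupp.lapply_apply, Finsupp.single_apply] at h1
    exact h1
  have h1 := congrArg (fun z => TensorProduct.lid k V (f.rTensor V z)) h
  simp only [map_sum, LinearMap.rTensor_tmul, TensorProduct.lid_tmul, map_zero, hfx] at h1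
  simpa using h1

namespace Res

theorem cc_sq (r : R) (hr : r ∈ maximalIdeal R ^ 2) : X.cc r = 0 := by
  have hm : ∀ r ∈ maximalIdeal R ^ 2, r ∈ maximalIdeal R ∧ X.cc r = 0 := by
    intro r hr
    rw [pow_two] at hr
    refine Submodule.mul_induction_on (C := fun r => r ∈ maximalIdeal R ∧ X.cc r = 0) hr ?_ ?_
    · intro a ha b hb
      refine ⟨Ideal.mul_mem_left _ _ hb, ?_⟩
      rw [X.cc_mul a b hb, (residue_eq_zero_iff a).2 ha, zero_smul]
    · rintro a b ⟨ha, ha'⟩ ⟨hb, hb'⟩
      exact ⟨Ideal.add_mem _ ha hb, by rw [X.cc_add a b ha hb, ha', hb', add_zero]⟩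
  exact (hm r hr).2

namespace HR
variable (Y : HR X)

section
variable [DecidableEq {β : B // X.deg β = 1}]
variable {G : Type u} [CommRing G] [Algebra (ResidueField R) G] (D : GrData R G) [Fintype {β : B // X.deg β = 1}]

theorem xg_li : LinearIndependent (ResidueField R) (xg (X := X) D) := by
  classical
  rw [Fintype.linearIndependent_iff]
  intro c hc j
  choose c' hc' using fun j => residue_surjective (c j)
  set z : (B →₀ R) := ∑ j : {β : B // X.deg β = 1}, c' j • Finsupp.single j.1 (1 : R) with hz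
  have hzj : ∀ j : {β : B // X.deg β = 1}, z j.1 = c' j := by
    intro j
    rw [hz, Finsupp.finsetSum_apply, Finset.sum_eq_single j]
    · simp
    · intro b _ hb
      rw [Finsupp.smul_apply, Finsupp.single_eq_of_ne, smul_zero]
      intro h1; exact hb (Subtype.ext h1.symm)
    · simp
  have hzd : ∀ γ, z γ ≠ 0 → X.deg γ = 1 := by
    intro γ hγ
    by_contra h
    apply hγ
    rw [hz, Finsupp.finsetSum_apply, Finset.sum_eq_zero]
    intro b _
    rw [Finsupp.smul_apply, Finsupp.single_eq_of_ne, smul_zero]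
    intro h1; rw [h1] at h; exact h b.2
  have h1 := sym_cc (X := X) D (X.d z X.one) (mem1 _ _)
  have h2 : ∑ j : {β : B // X.deg β = 1}, X.cc (X.d z X.one) j.1 • xg (X := X) D j = 0 := by
    rw [← hc]
    refine Finset.sum_congr rfl fun i _ => ?_
    rw [X.cc_d z hzd, red_apply, hzj, hc']
  rw [h2, D.sym_eq_zero] at h1
  have h3 := X.cc_d z hzd
  rw [cc_sq _ h1] at h3
  have h4 := congrArg (fun f => f j.1) h3
  simp only [red_apply, hzj, hc', Finsupp.zero_apply] at h4
  exact h4.symm

theorem lam_of_dK (t : (B →₀ ResidueField R)) (h : dK Y.ht (xg D) ((1 : G) ⊗ₜ[ResidueField R] t) = 0) (j) : Y.ht.lam j t = 0 := by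
  rw [dK_tmul] at h
  simp only [mul_one] at h
  exact sum_tmul_eq_zero_of_li (xg (X := X) D) (xg_li D) _ h j

end
end HR
end Res

theorem range_Pg (deg : B → ℕ) (i : ℕ) :
    LinearMap.range (Pg (ResidueField R) deg i) = Finsupp.supported (ResidueField R) (ResidueField R) {β | deg β = i} := by
  ext t
  constructor
  · rintro ⟨s, rfl⟩
    rw [Finsupp.mem_supported']
    intro γ hγ
    have : ¬ deg γ = i := hγ
    rw [Pg, dg_apply, if_neg this, zero_mul]
  · intro ht
    rw [Finsupp.mem_supported'] at ht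
    refine ⟨t, ?_⟩
    ext γ
    rw [Pg, dg_apply]
    by_cases h : deg γ = i
    · rw [if_pos h, one_mul]
    · rw [if_neg h, zero_mul, ht γ h]

/-- basis elements of degree `i` -/
def degEquiv (b : ℕ → ℕ) (deg : (Σ n, Fin (b n)) → ℕ) (hdeg : ∀ β, deg β = β.1) (i : ℕ) :
    {β : Σ n, Fin (b n) // deg β = i} ≃ Fin (b i) where
  toFun β := Fin.cast (by rw [← hdeg, β.2]) β.1.2
  invFun a := ⟨⟨i, a⟩, hdeg _⟩
  left_inv := by
    rintro ⟨⟨n, a⟩, h⟩
    have : n = i := by rw [← h, hdeg]
    subst this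
    rfl
  right_inv := by intro a; rfl

theorem finrank_Pg (b : ℕ → ℕ) (deg : (Σ n, Fin (b n)) → ℕ) (hdeg : ∀ β, deg β = β.1) (i : ℕ) :
    Module.Finite (ResidueField R) (LinearMap.range (Pg (ResidueField R) deg i)) ∧
      Module.finrank (ResidueField R) (LinearMap.range (Pg (ResidueField R) deg i)) = b i := by
  rw [range_Pg]
  let e : Finsupp.supported (ResidueField R) (ResidueField R) {β | deg β = i} ≃ₗ[ResidueField R] (Fin (b i) →₀ (ResidueField R)) :=
    (Finsupp.supportedEquivFinsupp _).trans (Finsupp.domLCongr (degEquiv b deg hdeg i))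
  constructor
  · exact Module.Finite.equiv e.symm
  · rw [e.finrank_eq]; simp

theorem sum_Sw {M : Type*} [AddCommMonoid M] (w : ℕ) (f : ℕ → ℕ → M) :
    ∑ s ∈ Sw w, f s.1 s.2 = ∑ i ∈ Finset.range (w+1), ∑ n ∈ Finset.range (w+1-i), f n i := by
  rw [Finset.sum_sigma']
  refine Finset.sum_bij' (fun s _ => ⟨s.2, s.1⟩) (fun s _ => (s.2, s.1)) ?_ ?_ ?_ ?_ ?_
  · rintro ⟨n, i⟩ h
    simp only [Sw, Finset.mem_filter, Finset.mem_product, Finset.mem_range] at h
    simp only [Finset.mem_sigma, Finset.mem_range]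
    omega
  · rintro ⟨i, n⟩ h
    simp only [Finset.mem_sigma, Finset.mem_range] at h
    simp only [Sw, Finset.mem_filter, Finset.mem_product, Finset.mem_range]
    omega
  · rintro ⟨n, i⟩ h; rfl
  · rintro ⟨i, n⟩ h; rfl
  · rintro ⟨n, i⟩ h; rfl

end Pool.Agent.N38.LU
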