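import Pool.Agent.N38.LU.F1
/-! Final assembly: for a Noetherian local ring, `ld_R(k) < ∞` implies `ld_R(k) = 0`. -/
universe u
set_option autoImplicit false
set_option linter.unusedSectionVars false
set_option linter.unusedVariables false
open IsLocalRing TensorProduct

namespace Pool.Agent.N38.LU

theorem exAt_all (R : Type u) [CommRing R] [IsLocalRing R] [IsNoetherianRing R]
    (b : ℕ → ℕ) (d : ∀ n : ℕ, (Fin (b (n+1)) → R) →ₗ[R] (Fin (b n) → R))
    (ε : (Fin (b 0) → R) →ₗ[R] ResidueField R) (hε : Function.Surjective ε)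
    (h0 : LinearMap.ker ε = LinearMap.range (d 0))
    (hex : ∀ n : ℕ, LinearMap.ker (d n) = LinearMap.range (d (n+1)))
    (hmin : ∀ n : ℕ, LinearMap.range (d n) ≤ maximalIdeal R • (⊤ : Submodule R (Fin (b n) → R)))
    (w : ℕ) (hw : Acyc R b d w) (X : Res R (Σ n, Fin (b n))) (hdeg : ∀ β, X.deg β = β.1)
    (hX : ∀ i j, 1 ≤ i → w < i + j → ExAt X i j) (i j : ℕ) (hi : 1 ≤ i) : ExAt X i j := by
  classical
  obtain ⟨Y⟩ := Res.exists_HR (X := X)
  obtain ⟨G, _, _, ⟨D⟩⟩ := Pool.Agent.N38.LU.N763.exists_gr R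
  have : Fintype {β : Σ n, Fin (b n) // X.deg β = 1} := Fintype.ofEquiv _ (degEquiv b X.deg hdeg 1).symm
  set H := Y.ht with hH
  set x := Res.HR.xg (X := X) D with hx
  have C : Pool.Agent.N38.LU.N58.Compat X D H x := Y.compat D
  obtain ⟨XD0, hXD⟩ := Pool.Agent.N38.LU.N839.exists_XD H x D.pi (fun i j g => Pool.Agent.N38.LU.N58.pi_pi D i j g) D.pi_sum
    (fun n j g => (Pool.Agent.N38.LU.N58.pi_x C n j g).1) (fun j g => (Pool.Agent.N38.LU.N58.pi_x C 0 j g).2)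
    (Pool.Agent.N38.LU.N58.dK_dK C) w
    (fun v hv hp => Pool.Agent.N38.LU.N58.hex_of_ExAt C w hX v hv hp)
  have hP : ∀ i, H.P i = Pg (ResidueField R) X.deg i := fun i => rfl
  obtain ⟨hfin, htr⟩ := Pool.Agent.N38.LU.N12.trace_J D.pi H.P H.J (fun i j g => Pool.Agent.N38.LU.N58.pi_pi D i j g)
    H.P_P (fun i t => H.J_P i t) (fun i => (Pool.Agent.N38.LU.N763.gr_finrank R G D i).1)
    (fun i => by rw [hP]; exact (finrank_Pg b X.deg hdeg i).1) (Sw w) (LinearMap.range (pw D.pi H.P w)) rfl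
  have := hfin
  have hχ : LinearMap.trace (ResidueField R) (LinearMap.range (pw D.pi H.P w)) XD0.JX ≠ 0 := by
    rw [htr XD0.JX hXD]
    let F : ℕ → ℕ → ResidueField R := fun n i =>
      (((-1 : ℤ) ^ i * (b i : ℤ) * ((Module.length R (↥(maximalIdeal R ^ n) ⧸
          Submodule.comap (maximalIdeal R ^ n).subtype (maximalIdeal R ^ (n+1)))).toNat : ℤ) : ℤ) : ResidueField R)
    have e1 : ∀ s : ℕ × ℕ, (-1 : ResidueField R) ^ s.2 *
        (Module.finrank (ResidueField R) (LinearMap.range (D.pi s.1)) : ResidueField R) *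
        (Module.finrank (ResidueField R) (LinearMap.range (H.P s.2)) : ResidueField R) = F s.1 s.2 := by
      intro s
      rw [hP, (finrank_Pg b X.deg hdeg s.2).2, (Pool.Agent.N38.LU.N763.gr_finrank R G D s.1).2]
      show _ = ((_ : ℤ) : ResidueField R)
      push_cast
      ring
    rw [Finset.sum_congr rfl (fun s _ => e1 s), sum_Sw w F]
    have e2 := Pool.Agent.N38.LU.N402.euler R b d ε hε h0 hex hmin w hw
    have e3 := congrArg (Int.cast : ℤ → ResidueField R) e2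
    rw [Int.cast_sum] at e3
    simp only [Int.cast_sum] at e3
    show ¬ (∑ i ∈ Finset.range (w+1), ∑ n ∈ Finset.range (w+1-i), F n i = 0)
    rw [e3, Int.cast_one]
    exact one_ne_zero
  refine Pool.Agent.N38.LU.N58.ExAt_of_vanishing C ?_ ?_ i j hi
  · intro m i κ hκ hd
    exact XD0.key1 (Y.quad D) hχ m i κ hκ hd
  · intro i hi κ hκ hd
    exact XD0.key0 hχ i hi κ hκ (fun j => Y.lam_of_dK D κ hd j)

theorem main (R : Type u) [CommRing R] [IsLocalRing R] [IsNoetherianRing R]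
    (b : ℕ → ℕ) (d : ∀ n : ℕ, (Fin (b (n+1)) → R) →ₗ[R] (Fin (b n) → R))
    (ε : (Fin (b 0) → R) →ₗ[R] ResidueField R) (hε : Function.Surjective ε)
    (h0 : LinearMap.ker ε = LinearMap.range (d 0))
    (hex : ∀ n : ℕ, LinearMap.ker (d n) = LinearMap.range (d (n+1)))
    (hmin : ∀ n : ℕ, LinearMap.range (d n) ≤ maximalIdeal R • (⊤ : Submodule R (Fin (b n) → R)))
    (hN : ∃ N : ℕ, ∀ n : ℕ, N ≤ n → ∀ j : ℕ, ∀ x : Fin (b (n+1)) → R,
        x ∈ (maximalIdeal R) ^ j • (⊤ : Submodule R (Fin (b (n+1)) → R)) →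
        d n x ∈ (maximalIdeal R) ^ (j+2) • (⊤ : Submodule R (Fin (b n) → R)) →
        x ∈ (maximalIdeal R) ^ (j+1) • (⊤ : Submodule R (Fin (b (n+1)) → R)) ⊔
          Submodule.map (d (n+1))
            ((maximalIdeal R) ^ (j-1) • (⊤ : Submodule R (Fin (b (n+1+1)) → R)))) :
    ∀ n : ℕ, ∀ j : ℕ, ∀ x : Fin (b (n+1)) → R,
        x ∈ (maximalIdeal R) ^ j • (⊤ : Submodule R (Fin (b (n+1)) → R)) →
        d n x ∈ (maximalIdeal R) ^ (j+2) • (⊤ : Submodule R (Fin (b n) → R)) →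
        x ∈ (maximalIdeal R) ^ (j+1) • (⊤ : Submodule R (Fin (b (n+1)) → R)) ⊔
          Submodule.map (d (n+1))
            ((maximalIdeal R) ^ (j-1) • (⊤ : Submodule R (Fin (b (n+1+1)) → R))) := by
  obtain ⟨w, hw'⟩ := Pool.Agent.N38.LU.N207.acyc_of_finite R b d ε hε h0 hex hmin hN
  have hw : Acyc R b d w := hw'
  obtain ⟨X, hdeg, _, h3, h4⟩ := Pool.Agent.N38.LU.N525.exists_res R b d ε hε h0 hex hmin
  intro n j
  exact h4 n j (exAt_all R b d ε hε h0 hex hmin w hw X hdeg (h3 w hw) (n+1) j (by omega))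

end Pool.Agent.N38.LU
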